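import Pool.Agent.X240.NR.LS

/-!
# Entropy compression for colourings given by lists
-/

namespace Pool.Agent.X240.NR

open Finset

/-- The colour of the vertex `v` in a partial colouring. -/
def look {Col : Type} (s : List (Option Col)) (v : ℕ) : Option Col := s.getD v none

/-- Give the colour `c` to the vertex `v`. -/
def setv {Col : Type} (s : List (Option Col)) (v : ℕ) (c : Col) : List (Option Col) :=
  s.mapIdx (fun i o => if i = v then some c else o)

/-- Erase the colours of the vertices in `P`. -/
def unset {Col : Type} (s : List (Option Col)) (P : List ℕ) : List (Option Col) :=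
  s.mapIdx (fun i o => if i ∈ P then none else o)

/-- The first vertex without a colour. -/
def nxt {Col : Type} (s : List (Option Col)) : ℕ := s.findIdx (fun o => o.isNone)

/-- Events: two sequences of vertices. -/
abbrev Ev := List ℕ × List ℕ

/-- A bad event: two disjoint paths with the same number `t` of vertices and the same colours, such
that the last vertex of the first path is adjacent to the first vertex of the second path, or
`t = T`. -/
structure IsBad {Col : Type} (adj : ℕ → ℕ → Prop) (T : ℕ) (s : List (Option Col)) (e : Ev) :
    Prop where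
  len : e.1.length = e.2.length
  pos : e.1 ≠ []
  le : e.1.length ≤ T
  nodup : (e.1 ++ e.2).Nodup
  ch1 : e.1.IsChain adj
  ch2 : e.2.IsChain adj
  col : e.1.map (look s) = e.2.map (look s)
  isSome : ∀ x ∈ e.1, (look s x).isSome = true
  close : e.1.length = T ∨ ∀ x ∈ e.1.getLast?, ∀ y ∈ e.2.head?, adj x y

section basic

variable {Col : Type}

theorem look_setv {s : List (Option Col)} {v : ℕ} (c : Col) (i : ℕ) :
    look (setv s v c) i = if i = v ∧ i < s.length then some c else look s i := by
  unfold look setv
  rw [List.getD_eq_getElem?_getD, List.getElem?_mapIdx, List.getD_eq_getElem?_getD]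
  by_cases hi : i < s.length
  · rw [List.getElem?_eq_getElem hi]
    by_cases h : i = v
    · simp [h]
      intro h2; omega
    · simp [h]
  · rw [List.getElem?_eq_none (by omega)]
    simp [hi]

theorem look_unset {s : List (Option Col)} {P : List ℕ} (i : ℕ) :
    look (unset s P) i = if i ∈ P then none else look s i := by
  unfold look unset
  rw [List.getD_eq_getElem?_getD, List.getElem?_mapIdx, List.getD_eq_getElem?_getD]
  by_cases hi : i < s.length
  · rw [List.getElem?_eq_getElem hi]
    by_cases h : i ∈ P <;> simp [h]
  · rw [List.getElem?_eq_none (by omega)]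
    simp

@[simp] theorem length_setv {s : List (Option Col)} {v : ℕ} (c : Col) :
    (setv s v c).length = s.length := by simp [setv]

@[simp] theorem length_unset {s : List (Option Col)} {P : List ℕ} :
    (unset s P).length = s.length := by simp [unset]

theorem look_eq_none {s : List (Option Col)} {i : ℕ} (h : s.length ≤ i) : look s i = none := by
  unfold look
  rw [List.getD_eq_getElem?_getD, List.getElem?_eq_none h]
  rfl

theorem lt_of_isSome {s : List (Option Col)} {i : ℕ} (h : (look s i).isSome = true) :
    i < s.length := by
  by_contra h1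
  rw [look_eq_none (by omega)] at h
  simp at h

theorem ext_look {s s' : List (Option Col)} (h : s.length = s'.length)
    (h2 : ∀ i, look s i = look s' i) : s = s' := by
  apply List.ext_getElem h
  intro i h3 h4
  have := h2 i
  unfold look at this
  rw [List.getD_eq_getElem?_getD, List.getD_eq_getElem?_getD, List.getElem?_eq_getElem h3,
    List.getElem?_eq_getElem h4] at this
  simpa using this

theorem nxt_le (s : List (Option Col)) : nxt s ≤ s.length := List.findIdx_le_length

theorem look_nxt (s : List (Option Col)) : look s (nxt s) = none := by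
  by_cases h : nxt s < s.length
  · have h1 : (s[nxt s]'h).isNone = true :=
      List.findIdx_getElem (xs := s) (p := fun o : Option Col => o.isNone) (w := h)
    rw [Option.isNone_iff_eq_none] at h1
    unfold look
    rw [List.getD_eq_getElem?_getD, List.getElem?_eq_getElem h, h1]
    rfl
  · exact look_eq_none (by omega)

theorem isSome_of_lt_nxt {s : List (Option Col)} {i : ℕ} (h : i < nxt s) :
    (look s i).isSome = true := by
  have h1 := nxt_le s
  have h2 := List.not_of_lt_findIdx (xs := s) (p := fun o => o.isNone) h
  unfold look
  rw [List.getD_eq_getElem?_getD, List.getElem?_eq_getElem (by omega)]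
  simp only [Option.getD_some]
  cases hh : s[i]'(by omega) with
  | none => simp [hh] at h2
  | some c => rfl

/-- The set of coloured vertices. -/
def dom (s : List (Option Col)) : Finset ℕ := (range s.length).filter (fun v => (look s v).isSome)

theorem mem_dom {s : List (Option Col)} {v : ℕ} : v ∈ dom s ↔ (look s v).isSome = true := by
  unfold dom
  rw [mem_filter, mem_range]
  exact ⟨fun h => h.2, fun h => ⟨lt_of_isSome h, h⟩⟩

/-- The least number outside of a finite set. -/
noncomputable def nx (D : Finset ℕ) : ℕ := sInf {v | v ∉ D}

theorem nx_dom (s : List (Option Col)) : nx (dom s) = nxt s := by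
  unfold nx
  apply le_antisymm
  · apply Nat.sInf_le
    change nxt s ∉ dom s
    rw [mem_dom, look_nxt]
    simp
  · by_contra h
    push Not at h
    have h1 : sInf {v | v ∉ dom s} ∈ {v | v ∉ dom s} :=
      Nat.sInf_mem ⟨nxt s, by
        change nxt s ∉ dom s
        rw [mem_dom, look_nxt]
        simp⟩
    change sInf {v | v ∉ dom s} ∉ dom s at h1
    rw [mem_dom] at h1
    exact h1 (isSome_of_lt_nxt h)

theorem dom_setv {s : List (Option Col)} {v : ℕ} (c : Col) (hv : v < s.length) :
    dom (setv s v c) = insert v (dom s) := by
  ext i
  rw [mem_dom, mem_insert, mem_dom, look_setv]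
  by_cases h : i = v
  · subst h; simp [hv]
  · simp [h]

theorem dom_unset {s : List (Option Col)} {P : List ℕ} :
    dom (unset s P) = dom s \ P.toFinset := by
  ext i
  rw [mem_dom, mem_sdiff, mem_dom, look_unset, List.mem_toFinset]
  by_cases h : i ∈ P <;> simp [h]

/-- A bad event is bad for every colouring that agrees on its vertices. -/
theorem IsBad.congr {adj : ℕ → ℕ → Prop} {T : ℕ} {s s' : List (Option Col)} {e : Ev}
    (h : IsBad adj T s e) (h2 : ∀ x, x ∈ e.1 ∨ x ∈ e.2 → look s x = look s' x) :
    IsBad adj T s' e := by
  have h3 : e.1.map (look s) = e.1.map (look s') :=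
    List.map_congr_left fun x hx => h2 x (Or.inl hx)
  have h4 : e.2.map (look s) = e.2.map (look s') :=
    List.map_congr_left fun x hx => h2 x (Or.inr hx)
  exact ⟨h.len, h.pos, h.le, h.nodup, h.ch1, h.ch2, by rw [← h3, ← h4]; exact h.col,
    fun x hx => by rw [← h2 x (Or.inl hx)]; exact h.isSome x hx, h.close⟩

theorem IsBad.isSome' {adj : ℕ → ℕ → Prop} {T : ℕ} {s : List (Option Col)} {e : Ev}
    (h : IsBad adj T s e) : ∀ x, x ∈ e.1 ∨ x ∈ e.2 → (look s x).isSome = true := by
  rintro x (hx | hx)
  · exact h.isSome x hx
  · have h1 : look s x ∈ e.2.map (look s) := List.mem_map.2 ⟨x, hx, rfl⟩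
    rw [← h.col] at h1
    obtain ⟨y, hy, hxy⟩ := List.mem_map.1 h1
    rw [← hxy]
    exact h.isSome y hy

end basic

/-- The data of the algorithm. -/
structure Sys (Col : Type) where
  n : ℕ
  T : ℕ
  adj : ℕ → ℕ → Prop
  find : List (Option Col) → Option Ev
  evs : ℕ → Finset Ev

namespace Sys

variable {Col : Type}

/-- Put the event such that the given vertex is in the first part. -/
def nrm (v : ℕ) (e : Ev) : Ev := if v ∈ e.1 then e else (e.2, e.1)

/-- One step of the algorithm: the new state and the record. -/
def step (Y : Sys Col) (s : List (Option Col)) (c : Col) : List (Option Col) × Option Ev :=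
  if nxt s < s.length then
    (Y.find (setv s (nxt s) c)).elim (setv s (nxt s) c, none)
      (fun e => (unset (setv s (nxt s) c) (nrm (nxt s) e).1, some (nrm (nxt s) e)))
  else (s, none)

/-- The state after the random colours `r` (the last one first). -/
def run (Y : Sys Col) : List Col → List (Option Col)
  | [] => List.replicate Y.n none
  | c :: r => (Y.step (Y.run r) c).1

/-- The record of the run. -/
def rcd (Y : Sys Col) : List Col → List (Option Ev)
  | [] => []
  | c :: r => (Y.step (Y.run r) c).2 :: Y.rcd r

/-- The set of coloured vertices determined by a record. -/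
noncomputable def domR : List (Option Ev) → Finset ℕ
  | [] => ∅
  | none :: ρ => insert (nx (domR ρ)) (domR ρ)
  | some e :: ρ => insert (nx (domR ρ)) (domR ρ) \ e.1.toFinset

theorem length_step (Y : Sys Col) (s : List (Option Col)) (c : Col) :
    (Y.step s c).1.length = s.length := by
  unfold step
  split_ifs
  · cases Y.find (setv s (nxt s) c) <;> simp
  · rfl

theorem length_run (Y : Sys Col) : ∀ r : List Col, (Y.run r).length = Y.n
  | [] => by simp [run]
  | c :: r => by rw [run, length_step, length_run Y r]

/-- all vertices are coloured -/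
def Complete (s : List (Option Col)) : Prop := nxt s = s.length

theorem not_complete {s : List (Option Col)} : ¬ Complete s ↔ nxt s < s.length := by
  have := nxt_le s
  unfold Complete
  omega

theorem not_complete_tail (Y : Sys Col) {c : Col} {r : List Col} (h : ¬ Complete (Y.run (c :: r))) :
    ¬ Complete (Y.run r) := by
  intro h1
  apply h
  rw [run]
  unfold step
  rw [if_neg (by unfold Complete at h1; omega)]
  exact h1

theorem dom_run (Y : Sys Col) : ∀ r : List Col, ¬ Complete (Y.run r) → dom (Y.run r) = domR (Y.rcd r)
  | [], _ => by
    rw [rcd, domR, run]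
    ext i
    rw [mem_dom]
    simp only [notMem_empty, iff_false]
    unfold look
    rw [List.getD_eq_getElem?_getD, List.getElem?_replicate]
    split_ifs <;> simp
  | c :: r, h => by
    have h1 := Y.not_complete_tail h
    have h2 := dom_run Y r h1
    have h3 := not_complete.1 h1
    rw [rcd, run]
    unfold step
    rw [if_pos h3]
    cases hf : Y.find (setv (Y.run r) (nxt (Y.run r)) c) with
    | none =>
      simp only [Option.elim]
      rw [domR, dom_setv c h3, ← h2, nx_dom]
    | some e =>
      simp only [Option.elim]
      rw [domR, dom_unset, dom_setv c h3, ← h2, nx_dom]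

/-- The conditions for a correct search for bad events. -/
structure Ok (Y : Sys Col) : Prop where
  symm : ∀ x y, Y.adj x y → Y.adj y x
  sound : ∀ s : List (Option Col), s.length = Y.n → ∀ e, Y.find s = some e → IsBad Y.adj Y.T s e
  complete : ∀ s : List (Option Col), s.length = Y.n → Y.find s = none →
    ∀ e, ¬ IsBad Y.adj Y.T s e

variable {Y : Sys Col}

theorem mem_of_bad {s : List (Option Col)} {c : Col}
    (hs : ∀ e, ¬ IsBad Y.adj Y.T s e) {e : Ev} (he : IsBad Y.adj Y.T (setv s (nxt s) c) e) :
    nxt s ∈ (nrm (nxt s) e).1 := by
  unfold nrm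
  split_ifs with h
  · exact h
  · by_contra h2
    simp only at h2
    apply hs e
    apply he.congr
    intro x hx
    rw [look_setv, if_neg]
    rintro ⟨rfl, _⟩
    exact hx.elim h h2

theorem noBad (hY : Y.Ok) : ∀ r : List Col, ∀ e, ¬ IsBad Y.adj Y.T (Y.run r) e
  | [] => by
    intro e he
    obtain ⟨x, hx⟩ := List.exists_mem_of_ne_nil _ he.pos
    have := he.isSome x hx
    rw [run] at this
    unfold look at this
    rw [List.getD_eq_getElem?_getD, List.getElem?_replicate] at this
    split_ifs at this <;> simp at this
  | c :: r => by
    have ih := noBad hY r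
    have hl := Y.length_run r
    rw [run]
    unfold step
    split_ifs with h
    · cases hf : Y.find (setv (Y.run r) (nxt (Y.run r)) c) with
      | none =>
        simp only [Option.elim]
        exact hY.complete _ (by simp [hl]) hf
      | some e =>
        simp only [Option.elim]
        have hb := hY.sound _ (by simp [hl]) e hf
        have hv := mem_of_bad ih hb
        intro e2 he2
        apply ih e2
        apply he2.congr
        intro x hx
        have h1 := he2.isSome' x hx
        rw [look_unset] at h1 ⊢
        split_ifs at h1 ⊢ with h2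
        · simp at h1
        · rw [look_setv, if_neg]
          rintro ⟨rfl, _⟩
          exact h2 hv
    · exact ih

theorem IsBad.nrm_col {s : List (Option Col)} {e : Ev} {v : ℕ} (he : IsBad Y.adj Y.T s e) :
    (nrm v e).1.map (look s) = (nrm v e).2.map (look s) ∧ (nrm v e).1.length = (nrm v e).2.length ∧
      ∀ x ∈ (nrm v e).2, x ∉ (nrm v e).1 := by
  have hn := List.nodup_append.1 he.nodup
  unfold nrm
  split_ifs
  · exact ⟨he.col, he.len, fun x hx hx' => hn.2.2 x hx' x hx rfl⟩
  · exact ⟨he.col.symm, he.len.symm, fun x hx hx' => hn.2.2 x hx x hx' rfl⟩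

/-- The colouring before the erasure is determined by the event and the colouring after it. -/
theorem eq_of_unset {s s' : List (Option Col)} {P Q : List ℕ} (hl : s.length = s'.length)
    (h : P.map (look s) = Q.map (look s)) (h' : P.map (look s') = Q.map (look s'))
    (hd : ∀ x ∈ Q, x ∉ P) (hu : unset s P = unset s' P) : s = s' := by
  have h1 : ∀ i, i ∉ P → look s i = look s' i := by
    intro i hi
    have := congrArg (fun s => look s i) hu
    simpa [look_unset, hi] using this
  have h2 : Q.map (look s) = Q.map (look s') := List.map_congr_left fun x hx => h1 x (hd x hx)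
  have h3 : P.map (look s) = P.map (look s') := by rw [h, h', h2]
  apply ext_look hl
  intro i
  by_cases hi : i ∈ P
  · exact List.map_inj_left.1 h3 i hi
  · exact h1 i hi

/-- The random colours are determined by the record and the final state. -/
theorem run_injective (hY : Y.Ok) : ∀ r r' : List Col, r.length = r'.length →
    ¬ Complete (Y.run r) → ¬ Complete (Y.run r') → Y.run r = Y.run r' → Y.rcd r = Y.rcd r' → r = r'
  | [], [], _, _, _, _, _ => rfl
  | [], _ :: _, h, _, _, _, _ => by simp at h
  | _ :: _, [], h, _, _, _, _ => by simp at h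
  | c :: r, c' :: r', hl, hc, hc', hr, hR => by
    have h1 := Y.not_complete_tail hc
    have h2 := Y.not_complete_tail hc'
    rw [rcd, rcd, List.cons.injEq] at hR
    have h3 : nxt (Y.run r) = nxt (Y.run r') := by
      rw [← nx_dom, ← nx_dom, dom_run Y r h1, dom_run Y r' h2, hR.2]
    have h4 := not_complete.1 h1
    have h5 := not_complete.1 h2
    rw [run, run] at hr
    have hR1 := hR.1
    unfold step at hr hR1
    rw [if_pos h4, if_pos h5] at hr hR1
    have l1 := Y.length_run r
    have l2 := Y.length_run r'
    have hs : setv (Y.run r) (nxt (Y.run r)) c = setv (Y.run r') (nxt (Y.run r')) c' := by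
      cases hf : Y.find (setv (Y.run r) (nxt (Y.run r)) c) with
      | none =>
        cases hf' : Y.find (setv (Y.run r') (nxt (Y.run r')) c') with
        | none =>
          rw [hf, hf'] at hr
          exact hr
        | some e' =>
          rw [hf, hf'] at hR1
          simp at hR1
      | some e =>
        cases hf' : Y.find (setv (Y.run r') (nxt (Y.run r')) c') with
        | none =>
          rw [hf, hf'] at hR1
          simp at hR1
        | some e' =>
          rw [hf, hf'] at hR1 hr
          simp only [Option.elim, Option.some.injEq] at hR1 hr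
          have b1 := hY.sound _ (by simp [l1]) e hf
          have b2 := hY.sound _ (by simp [l2]) e' hf'
          have g1 := IsBad.nrm_col (v := nxt (Y.run r)) b1
          have g2 := IsBad.nrm_col (v := nxt (Y.run r')) b2
          rw [← hR1] at g2 hr
          exact eq_of_unset (by simp [l1, l2]) g1.1 g2.1 g1.2.2 hr
    have hcc : c = c' := by
      have : look (setv (Y.run r) (nxt (Y.run r)) c) (nxt (Y.run r)) =
        look (setv (Y.run r') (nxt (Y.run r')) c') (nxt (Y.run r)) := by rw [hs]
      rw [look_setv, look_setv, if_pos ⟨rfl, h4⟩, if_pos ⟨h3, by rw [h3]; exact h5⟩] at this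
      exact Option.some.inj this
    have hrr : Y.run r = Y.run r' := by
      apply ext_look (by rw [l1, l2])
      intro i
      by_cases hi : i = nxt (Y.run r)
      · have e1 := look_nxt (Y.run r)
        have e2 := look_nxt (Y.run r')
        rw [hi, e1, h3, e2]
      · have := congrArg (fun s => look s i) hs
        simp only [look_setv] at this
        rwa [if_neg (fun h => hi h.1), if_neg (fun h => hi (h.1.trans h3.symm))] at this
    rw [hcc, run_injective hY r r' (by simpa using hl) h1 h2 hrr hR.2]

/-- The possible records. -/
noncomputable def Rec (Y : Sys Col) : ℕ → Finset (List (Option Ev))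
  | 0 => {[]}
  | m + 1 => (Rec Y m).biUnion (fun ρ => insert (none :: ρ)
      (((Y.evs (nx (domR ρ))).filter (fun e => e.1.Nodup ∧
        e.1.toFinset ⊆ insert (nx (domR ρ)) (domR ρ))).image (fun e => some e :: ρ)))

/-- The condition that the events are contained in the given finite sets. -/
def EvOk (Y : Sys Col) : Prop := ∀ s : List (Option Col), s.length = Y.n → ∀ e, IsBad Y.adj Y.T s e →
  ∀ v, v ∈ (nrm v e).1 → nrm v e ∈ Y.evs v

theorem rcd_mem (hY : Y.Ok) (hE : Y.EvOk) : ∀ r : List Col, ¬ Complete (Y.run r) →
    Y.rcd r ∈ Y.Rec r.length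
  | [], _ => by simp [rcd, Rec]
  | c :: r, h => by
    have h1 := Y.not_complete_tail h
    have ih := rcd_mem hY hE r h1
    have h4 := not_complete.1 h1
    have l1 := Y.length_run r
    rw [rcd, List.length_cons, Rec, mem_biUnion]
    refine ⟨Y.rcd r, ih, ?_⟩
    unfold step
    rw [if_pos h4]
    cases hf : Y.find (setv (Y.run r) (nxt (Y.run r)) c) with
    | none => simp
    | some e =>
      simp only [Option.elim]
      have hb := hY.sound _ (by simp [l1]) e hf
      have hv := mem_of_bad (noBad hY r) hb
      rw [mem_insert, mem_image]
      right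
      refine ⟨nrm (nxt (Y.run r)) e, ?_, rfl⟩
      rw [mem_filter, ← dom_run Y r h1, nx_dom]
      refine ⟨hE _ (by simp [l1]) e hb _ hv, ?_, ?_⟩
      · have hn := List.nodup_append.1 hb.nodup
        unfold nrm
        split_ifs
        · exact hn.1
        · exact hn.2.1
      · rw [← dom_setv c h4]
        intro x hx
        rw [List.mem_toFinset] at hx
        rw [mem_dom]
        apply hb.isSome' x
        unfold nrm at hx
        split_ifs at hx
        · exact Or.inl hx
        · exact Or.inr hx

theorem nx_notMem (D : Finset ℕ) : nx D ∉ D := by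
  have h : {v | v ∉ D}.Nonempty := by
    obtain ⟨v, hv⟩ := Infinite.exists_notMem_finset D
    exact ⟨v, hv⟩
  exact Nat.sInf_mem h

/-- The weighted count of the records. -/
theorem sum_Rec {β : ℝ} (hβ : 1 ≤ β)
    (hw : ∀ v, ∑ e ∈ Y.evs v, (β⁻¹) ^ e.1.length ≤ 1) (m : ℕ) :
    ∑ ρ ∈ Y.Rec m, β ^ (domR ρ).card ≤ (2 * β) ^ m := by
  have hβ0 : 0 < β := by linarith
  induction m with
  | zero => simp [Rec, domR]
  | succ m ih =>
    rw [Rec]
    calc ∑ ρ ∈ (Y.Rec m).biUnion (fun ρ => insert (none :: ρ)
          (((Y.evs (nx (domR ρ))).filter (fun e => e.1.Nodup ∧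
            e.1.toFinset ⊆ insert (nx (domR ρ)) (domR ρ))).image (fun e => some e :: ρ))),
            β ^ (domR ρ).card
        ≤ ∑ ρ ∈ Y.Rec m, ∑ τ ∈ insert (none :: ρ)
          (((Y.evs (nx (domR ρ))).filter (fun e => e.1.Nodup ∧
            e.1.toFinset ⊆ insert (nx (domR ρ)) (domR ρ))).image (fun e => some e :: ρ)),
            β ^ (domR τ).card := by
          classical
          have key : ∀ (S : Finset (List (Option Ev))) (t : List (Option Ev) →
              Finset (List (Option Ev))), ∑ τ ∈ S.biUnion t, β ^ (domR τ).card ≤
              ∑ ρ ∈ S, ∑ τ ∈ t ρ, β ^ (domR τ).card := by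
            intro S t
            induction S using Finset.induction_on with
            | empty => simp
            | insert a S ha ih2 =>
              rw [biUnion_insert, sum_insert ha]
              have h1 : ∑ τ ∈ t a ∪ S.biUnion t, β ^ (domR τ).card ≤
                  ∑ τ ∈ t a, β ^ (domR τ).card + ∑ τ ∈ S.biUnion t, β ^ (domR τ).card := by
                have := sum_union_inter (s₁ := t a) (s₂ := S.biUnion t)
                  (f := fun τ => β ^ (domR τ).card)
                have h2 : 0 ≤ ∑ τ ∈ t a ∩ S.biUnion t, β ^ (domR τ).card :=
                  sum_nonneg fun _ _ => by positivity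
                linarith
              linarith
          exact key _ _
      _ ≤ ∑ ρ ∈ Y.Rec m, (2 * β) * β ^ (domR ρ).card := by
          apply sum_le_sum
          intro ρ _
          set v := nx (domR ρ) with hv
          have hvn : v ∉ domR ρ := nx_notMem _
          have hcard : (insert v (domR ρ)).card = (domR ρ).card + 1 := card_insert_of_notMem hvn
          have hni : (none :: ρ) ∉ (((Y.evs v).filter (fun e => e.1.Nodup ∧
            e.1.toFinset ⊆ insert v (domR ρ))).image (fun e => some e :: ρ)) := by
            simp
          rw [sum_insert hni, sum_image (by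
            intro a _ b _ hab
            simpa using hab)]
          have h1 : (domR (none :: ρ)).card = (domR ρ).card + 1 := by rw [domR]; exact hcard
          rw [h1]
          have h2 : ∑ e ∈ (Y.evs v).filter (fun e => e.1.Nodup ∧
              e.1.toFinset ⊆ insert v (domR ρ)), β ^ (domR (some e :: ρ)).card ≤
              β ^ ((domR ρ).card + 1) := by
            calc _ = ∑ e ∈ (Y.evs v).filter (fun e => e.1.Nodup ∧
                  e.1.toFinset ⊆ insert v (domR ρ)), β ^ ((domR ρ).card + 1) *
                    (β⁻¹) ^ e.1.length := by
                  apply sum_congr rfl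
                  intro e he
                  rw [mem_filter] at he
                  rw [domR, card_sdiff_of_subset he.2.2, hcard,
                    List.toFinset_card_of_nodup he.2.1]
                  have h3 : e.1.length ≤ (domR ρ).card + 1 := by
                    rw [← hcard, ← List.toFinset_card_of_nodup he.2.1]
                    exact card_le_card he.2.2
                  rw [pow_sub₀ _ hβ0.ne' h3, inv_pow]
              _ ≤ ∑ e ∈ Y.evs v, β ^ ((domR ρ).card + 1) * (β⁻¹) ^ e.1.length := by
                  apply sum_le_sum_of_subset_of_nonneg (filter_subset _ _)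
                  intro _ _ _
                  positivity
              _ = β ^ ((domR ρ).card + 1) * ∑ e ∈ Y.evs v, (β⁻¹) ^ e.1.length := by
                  rw [mul_sum]
              _ ≤ β ^ ((domR ρ).card + 1) * 1 :=
                  mul_le_mul_of_nonneg_left (hw v) (by positivity)
              _ = _ := mul_one _
          calc _ ≤ β ^ ((domR ρ).card + 1) + β ^ ((domR ρ).card + 1) := by gcongr
            _ = _ := by rw [pow_succ]; ring
      _ = (2 * β) * ∑ ρ ∈ Y.Rec m, β ^ (domR ρ).card := by rw [mul_sum]
      _ ≤ (2 * β) * (2 * β) ^ m := by gcongr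
      _ = _ := by rw [pow_succ]; ring

theorem card_Rec {β : ℝ} (hβ : 1 ≤ β)
    (hw : ∀ v, ∑ e ∈ Y.evs v, (β⁻¹) ^ e.1.length ≤ 1) (m : ℕ) :
    ((Y.Rec m).card : ℝ) ≤ (2 * β) ^ m := by
  refine le_trans ?_ (sum_Rec hβ hw m)
  rw [card_eq_sum_ones, Nat.cast_sum]
  apply sum_le_sum
  intro ρ _
  simpa using one_le_pow₀ hβ

/-- All states have colours in the given set. -/
theorem run_mem [DecidableEq Col] {Cs : Finset Col} : ∀ (r : List Col), (∀ c ∈ r, c ∈ Cs) →
    Y.run r ∈ LS (insert none (Cs.image some)) Y.n := by
  intro r hr
  rw [mem_LS]
  refine ⟨Y.length_run r, ?_⟩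
  induction r with
  | nil =>
    intro x hx
    rw [run] at hx
    rw [List.eq_of_mem_replicate hx]
    simp
  | cons c r ih =>
    have ih' := ih fun c hc => hr c (by simp [hc])
    have h1 : ∀ s : List (Option Col), (∀ x ∈ s, x ∈ insert none (Cs.image some)) →
        ∀ x ∈ setv s (nxt s) c, x ∈ insert none (Cs.image some) := by
      intro s hs x hx
      unfold setv at hx
      rw [List.mem_mapIdx] at hx
      obtain ⟨i, hi, rfl⟩ := hx
      split_ifs
      · simp [hr c (by simp)]
      · exact hs _ (List.getElem_mem _)
    rw [run]
    unfold step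
    split_ifs with h
    · cases hf : Y.find (setv (Y.run r) (nxt (Y.run r)) c) with
      | none =>
        simp only [Option.elim]
        exact h1 _ ih'
      | some e =>
        simp only [Option.elim]
        intro x hx
        unfold unset at hx
        rw [List.mem_mapIdx] at hx
        obtain ⟨i, hi, rfl⟩ := hx
        split_ifs
        · simp
        · exact h1 _ ih' _ (List.getElem_mem _)
    · exact ih'

open Classical in
/-- **Entropy compression.** -/
theorem card_incomplete [DecidableEq Col] (hY : Y.Ok) (hE : Y.EvOk) {β : ℝ} (hβ : 1 ≤ β)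
    (hw : ∀ v, ∑ e ∈ Y.evs v, (β⁻¹) ^ e.1.length ≤ 1) (Cs : Finset Col) (N : ℕ) :
    (((LS Cs N).filter (fun r => ¬ Complete (Y.run r))).card : ℝ) ≤
      (Cs.card + 1) ^ Y.n * (2 * β) ^ N := by
  have h1 : ((LS Cs N).filter (fun r => ¬ Complete (Y.run r))).card ≤
      (LS (insert none (Cs.image some)) Y.n ×ˢ Y.Rec N).card := by
    apply card_le_card_of_injOn (fun r => (Y.run r, Y.rcd r))
    · intro r hr
      rw [mem_coe, mem_filter, mem_LS] at hr
      rw [mem_coe, mem_product]
      refine ⟨run_mem r hr.1.2, ?_⟩
      rw [← hr.1.1]
      exact rcd_mem hY hE r hr.2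
    · intro r hr r' hr' h
      rw [mem_coe, mem_filter, mem_LS] at hr hr'
      simp only [Prod.mk.injEq] at h
      exact run_injective hY r r' (by rw [hr.1.1, hr'.1.1]) hr.2 hr'.2 h.1 h.2
  rw [card_product, card_LS] at h1
  have h2 : (insert (none : Option Col) (Cs.image some)).card ≤ Cs.card + 1 := by
    refine (card_insert_le _ _).trans ?_
    exact Nat.add_le_add_right card_image_le 1
  have h3 := card_Rec (Y := Y) hβ hw N
  calc (((LS Cs N).filter (fun r => ¬ Complete (Y.run r))).card : ℝ)
      ≤ (((insert (none : Option Col) (Cs.image some)).card ^ Y.n * (Y.Rec N).card : ℕ) : ℝ) := by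
        exact_mod_cast h1
    _ ≤ (Cs.card + 1) ^ Y.n * (2 * β) ^ N := by
        push_cast
        apply mul_le_mul
        · apply pow_le_pow_left₀ (by positivity)
          exact_mod_cast h2
        · exact h3
        · positivity
        · positivity

end Sys

end Pool.Agent.X240.NR
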