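import Pool.Agent.X240.NR.Dp

/-!
# Random families of hash functions are perfect
-/

namespace Pool.Agent.X240.NR

open Finset

/-- The hash functions that are injective on `U`. -/
def G (n m : ℕ) (U : List ℕ) : Finset (List ℕ) :=
  (LS (range m) n).filter (fun χ => (U.map (fun x => hv χ x)).Nodup)

theorem card_G_nil (n m : ℕ) : (G n m []).card = m ^ n := by
  unfold G
  rw [filter_true_of_mem (by simp), card_LS, card_range]

theorem hv_set {χ : List ℕ} {x c : ℕ} (hx : x < χ.length) (y : ℕ) :
    hv (χ.set x c) y = if y = x then c else hv χ y := by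
  unfold hv
  rw [List.getD_eq_getElem?_getD, List.getD_eq_getElem?_getD, List.getElem?_set]
  by_cases h : x = y
  · subst h
    simp [hx]
  · simp [h, Ne.symm h]

theorem set_hv {χ : List ℕ} {x : ℕ} (hx : x < χ.length) : χ.set x (hv χ x) = χ := by
  unfold hv
  rw [List.getD_eq_getElem?_getD, List.getElem?_eq_getElem hx]
  simp

theorem hv_lt {n m : ℕ} (hm : 0 < m) {χ : List ℕ} (h : χ ∈ LS (range m) n) (x : ℕ) : hv χ x < m := by
  rw [mem_LS] at h
  unfold hv
  rw [List.getD_eq_getElem?_getD]
  cases hh : χ[x]? with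
  | none => simpa using hm
  | some c =>
    simp only [Option.getD_some]
    exact mem_range.1 (h.2 c (List.mem_of_getElem? hh))

theorem card_G_cons {n m : ℕ} {x : ℕ} {U : List ℕ} (hx : x < n) (hxU : x ∉ U)
    (hm : 2 * U.length ≤ m) (h0 : 0 < m) : (G n m U).card ≤ 2 * (G n m (x :: U)).card := by
  have h1 : (((G n m U) ×ˢ range m).filter (fun p => p.2 ∉ U.map (fun y => hv p.1 y))).card ≤
      ((G n m (x :: U)) ×ˢ range m).card := by
    apply card_le_card_of_injOn (fun p => (p.1.set x p.2, hv p.1 x))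
    · rintro ⟨χ, c⟩ hp
      rw [mem_coe, mem_filter, mem_product] at hp
      obtain ⟨⟨h1, h2⟩, h3⟩ := hp
      simp only at h1 h2 h3
      unfold G at h1
      rw [mem_filter] at h1
      have hl := (mem_LS.1 h1.1).1
      rw [mem_coe, mem_product]
      simp only
      refine ⟨?_, mem_range.2 (hv_lt h0 h1.1 x)⟩
      unfold G
      rw [mem_filter, mem_LS]
      have h5 : U.map (fun y => hv (χ.set x c) y) = U.map (fun y => hv χ y) := by
        apply List.map_congr_left
        intro y hy
        rw [hv_set (by omega), if_neg]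
        rintro rfl
        exact hxU hy
      refine ⟨⟨by simp [hl], ?_⟩, ?_⟩
      · intro y hy
        rcases List.mem_or_eq_of_mem_set hy with h | h
        · exact (mem_LS.1 h1.1).2 y h
        · rw [h]; exact h2
      · rw [List.map_cons, List.nodup_cons, h5, hv_set (by omega), if_pos rfl]
        exact ⟨h3, h1.2⟩
    · rintro ⟨χ, c⟩ hp ⟨χ', c'⟩ hp' he
      rw [mem_coe, mem_filter, mem_product] at hp hp'
      simp only [Prod.mk.injEq] at he
      have h1 := hp.1.1
      have h2 := hp'.1.1
      unfold G at h1 h2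
      rw [mem_filter] at h1 h2
      have hl := (mem_LS.1 h1.1).1
      have hl' := (mem_LS.1 h2.1).1
      simp only at hl hl'
      have hc : c = c' := by
        have := congrArg (fun l => hv l x) he.1
        change hv (χ.set x c) x = hv (χ'.set x c') x at this
        rw [hv_set (by omega), hv_set (by omega)] at this
        simpa using this
      have hχ : χ = χ' := by
        rw [← set_hv (χ := χ) (x := x) (by omega), ← set_hv (χ := χ') (x := x) (by omega), he.2]
        have := congrArg (fun l => List.set l x (hv χ' x)) he.1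
        simpa using this
      rw [hc, hχ]
  have h2 : (G n m U).card * (m - U.length) ≤
      (((G n m U) ×ˢ range m).filter (fun p => p.2 ∉ U.map (fun y => hv p.1 y))).card := by
    rw [card_filter, sum_product, ← smul_eq_mul, ← sum_const]
    apply sum_le_sum
    intro χ _
    rw [← card_filter]
    have h3 : (range m).filter (fun c => c ∉ U.map (fun y => hv χ y)) =
        range m \ (U.map (fun y => hv χ y)).toFinset := by
      ext c
      simp
    rw [h3]
    calc m - U.length ≤ (range m).card - (U.map (fun y => hv χ y)).toFinset.card := by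
          rw [card_range]
          have := List.toFinset_card_le (U.map (fun y => hv χ y))
          rw [List.length_map] at this
          omega
      _ ≤ _ := le_card_sdiff _ _
  rw [card_product, card_range] at h1
  have h3 := h2.trans h1
  have h4 : (G n m U).card * m ≤ 2 * ((G n m U).card * (m - U.length)) := by
    have : m ≤ 2 * (m - U.length) := by omega
    calc _ ≤ (G n m U).card * (2 * (m - U.length)) := Nat.mul_le_mul_left _ this
      _ = _ := by ring
  have h5 : (G n m U).card * m ≤ (2 * (G n m (x :: U)).card) * m := by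
    calc _ ≤ _ := h4
      _ ≤ 2 * ((G n m (x :: U)).card * m) := Nat.mul_le_mul_left _ h3
      _ = _ := by ring
  exact Nat.le_of_mul_le_mul_right h5 h0

theorem card_G {n m : ℕ} (h0 : 0 < m) : ∀ (U : List ℕ), U.Nodup → (∀ x ∈ U, x < n) →
    2 * U.length ≤ m → m ^ n ≤ 2 ^ U.length * (G n m U).card
  | [], _, _, _ => by rw [card_G_nil]; simp
  | x :: U, h1, h2, h3 => by
    rw [List.nodup_cons] at h1
    simp only [List.length_cons] at h3
    have h4 := card_G h0 U h1.2 (fun y hy => h2 y (by simp [hy])) (by omega)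
    have h5 := card_G_cons (n := n) (m := m) (h2 x (by simp)) h1.1 (by omega) h0
    rw [List.length_cons, pow_succ]
    calc _ ≤ _ := h4
      _ ≤ 2 ^ U.length * (2 * (G n m (x :: U)).card) := Nat.mul_le_mul_left _ h5
      _ = _ := by ring

theorem sum_pow_le (n : ℕ) : ∀ K : ℕ, ∑ k ∈ range (K + 1), n ^ k ≤ (n + 1) ^ K
  | 0 => by simp
  | K + 1 => by
    rw [sum_range_succ]
    have h1 := sum_pow_le n K
    have h2 : n ^ (K + 1) ≤ n * (n + 1) ^ K := by
      rw [pow_succ, mul_comm]
      exact Nat.mul_le_mul_left _ (Nat.pow_le_pow_left (by omega) _)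
    calc _ ≤ (n + 1) ^ K + n * (n + 1) ^ K := Nat.add_le_add h1 h2
      _ = _ := by ring

theorem pow_half {K s R : ℕ} (hK : 1 ≤ K) (hR : K * s ≤ R) : (1 - 1 / (K : ℝ)) ^ R ≤ (1 / 2) ^ s := by
  have h0 : (1 : ℝ) ≤ K := by exact_mod_cast hK
  have h1 : 0 ≤ 1 - 1 / (K : ℝ) := by
    rw [sub_nonneg, div_le_one (by linarith)]
    exact h0
  have h2 : 1 - 1 / (K : ℝ) ≤ 1 := by
    rw [sub_le_self_iff]
    positivity
  have h3 : (1 - 1 / (K : ℝ)) ^ K ≤ 1 / 2 := by
    have h4 := Real.one_sub_div_pow_le_exp_neg (n := K) (t := 1) h0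
    have h5 := Real.exp_neg_one_lt_d9
    norm_num at h5
    linarith
  calc (1 - 1 / (K : ℝ)) ^ R ≤ (1 - 1 / (K : ℝ)) ^ (K * s) := pow_le_pow_of_le_one h1 h2 hR
    _ = ((1 - 1 / (K : ℝ)) ^ K) ^ s := by rw [pow_mul]
    _ ≤ _ := pow_le_pow_left₀ (by positivity) h3 s

open Classical in
/-- Most families of hash functions are perfect. -/
theorem card_notPerfect {n m T B s R : ℕ} (h0 : 0 < m) (hm : 4 * T ≤ m) (hB : m ≤ B)
    (hR : 4 ^ T * s ≤ R) :
    (((LS (LS (range m) n) R).filter (fun F => ¬ Perfect n T B F)).card : ℝ) ≤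
      (n + 1) ^ (2 * T) * (1 / 2) ^ s * ((m ^ n) ^ R : ℕ) := by
  have h1 : (LS (LS (range m) n) R).filter (fun F => ¬ Perfect n T B F) ⊆
      (((range (2 * T + 1)).biUnion (fun k => LS (range n) k)).filter (fun U => U.Nodup)).biUnion
        (fun U => LS ((LS (range m) n) \ G n m U) R) := by
    intro F hF
    rw [mem_filter, mem_LS] at hF
    obtain ⟨⟨hF1, hF2⟩, hF3⟩ := hF
    unfold Perfect at hF3
    rw [not_and_or] at hF3
    rcases hF3 with h | h
    · exact absurd (fun χ hχ x => lt_of_lt_of_le (hv_lt h0 (hF2 χ hχ) x) hB) h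
    · push Not at h
      obtain ⟨U, hU1, hU2, hU3, hU4⟩ := h
      rw [mem_biUnion]
      refine ⟨U, ?_, ?_⟩
      · rw [mem_filter, mem_biUnion]
        refine ⟨⟨U.length, mem_range.2 (by omega), ?_⟩, hU1⟩
        rw [mem_LS]
        exact ⟨rfl, fun x hx => mem_range.2 (hU3 x hx)⟩
      · rw [mem_LS]
        refine ⟨hF1, fun χ hχ => ?_⟩
        rw [mem_sdiff]
        refine ⟨hF2 χ hχ, fun h => hU4 χ hχ ?_⟩
        unfold G at h
        rw [mem_filter] at h
        exact h.2
  have h2 : ∀ U ∈ ((range (2 * T + 1)).biUnion (fun k => LS (range n) k)).filter (fun U => U.Nodup),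
      ((LS ((LS (range m) n) \ G n m U) R).card : ℝ) ≤ (1 / 2) ^ s * ((m ^ n) ^ R : ℕ) := by
    intro U hU
    rw [mem_filter, mem_biUnion] at hU
    obtain ⟨⟨k, hk, hU1⟩, hU2⟩ := hU
    rw [mem_LS] at hU1
    rw [mem_range] at hk
    have h3 := card_G (n := n) (m := m) h0 U hU2 (fun x hx => mem_range.1 (hU1.2 x hx)) (by omega)
    have h4 : m ^ n ≤ 4 ^ T * (G n m U).card := by
      refine h3.trans (Nat.mul_le_mul_right _ ?_)
      rw [show (4 : ℕ) = 2 ^ 2 by norm_num, ← pow_mul]
      exact Nat.pow_le_pow_right (by norm_num) (by omega)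
    rw [card_LS, card_sdiff_of_subset (by unfold G; exact filter_subset _ _), card_LS, card_range]
    have hM : (0 : ℝ) < ((m ^ n : ℕ) : ℝ) := by exact_mod_cast Nat.pow_pos h0
    have h5 : (((m ^ n - (G n m U).card : ℕ)) : ℝ) ≤ (1 - 1 / ((4 ^ T : ℕ) : ℝ)) * (m ^ n : ℕ) := by
      have h6 : (G n m U).card ≤ m ^ n := by
        have := card_le_card (filter_subset (fun χ => (U.map (fun x => hv χ x)).Nodup)
          (LS (range m) n))
        rw [card_LS, card_range] at this
        exact this
      rw [Nat.cast_sub h6]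
      have h7 : ((m ^ n : ℕ) : ℝ) ≤ ((4 ^ T : ℕ) : ℝ) * ((G n m U).card : ℝ) := by exact_mod_cast h4
      have h8 : (0 : ℝ) < ((4 ^ T : ℕ) : ℝ) := by positivity
      have h9 : (1 : ℝ) / ((4 ^ T : ℕ) : ℝ) * (m ^ n : ℕ) ≤ (G n m U).card := by
        rw [div_mul_eq_mul_div, one_mul, div_le_iff₀ h8]
        linarith
      linarith
    push_cast only [Nat.cast_pow]
    calc ((((m ^ n - (G n m U).card) : ℕ)) : ℝ) ^ R
        ≤ ((1 - 1 / ((4 ^ T : ℕ) : ℝ)) * (m ^ n : ℕ)) ^ R := pow_le_pow_left₀ (by positivity) h5 R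
      _ = (1 - 1 / ((4 ^ T : ℕ) : ℝ)) ^ R * ((m ^ n : ℕ) : ℝ) ^ R := by rw [mul_pow]
      _ ≤ (1 / 2) ^ s * ((m ^ n : ℕ) : ℝ) ^ R := by
          apply mul_le_mul_of_nonneg_right _ (by positivity)
          exact pow_half (Nat.one_le_pow _ _ (by norm_num)) hR
      _ = _ := by push_cast; ring
  have h3 : (((((range (2 * T + 1)).biUnion (fun k => LS (range n) k)).filter
      (fun U => U.Nodup)).card : ℕ) : ℝ) ≤ (n + 1) ^ (2 * T) := by
    have h4 : (((range (2 * T + 1)).biUnion (fun k => LS (range n) k)).filter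
      (fun U => U.Nodup)).card ≤ (n + 1) ^ (2 * T) := by
      refine (card_filter_le _ _).trans (card_biUnion_le.trans ?_)
      simp only [card_LS, card_range]
      exact sum_pow_le n (2 * T)
    exact_mod_cast h4
  calc (((LS (LS (range m) n) R).filter (fun F => ¬ Perfect n T B F)).card : ℝ)
      ≤ (((((range (2 * T + 1)).biUnion (fun k => LS (range n) k)).filter
          (fun U => U.Nodup)).biUnion (fun U => LS ((LS (range m) n) \ G n m U) R)).card : ℕ) := by
        exact_mod_cast card_le_card h1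
    _ ≤ ((∑ U ∈ ((range (2 * T + 1)).biUnion (fun k => LS (range n) k)).filter
          (fun U => U.Nodup), (LS ((LS (range m) n) \ G n m U) R).card : ℕ) : ℝ) := by
        exact_mod_cast card_biUnion_le
    _ ≤ ∑ U ∈ ((range (2 * T + 1)).biUnion (fun k => LS (range n) k)).filter
          (fun U => U.Nodup), (1 / 2 : ℝ) ^ s * (((m ^ n) ^ R : ℕ) : ℝ) := by
        push_cast only [Nat.cast_sum]
        exact sum_le_sum h2
    _ = _ * ((1 / 2 : ℝ) ^ s * (((m ^ n) ^ R : ℕ) : ℝ)) := by rw [sum_const, nsmul_eq_mul]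
    _ ≤ (n + 1) ^ (2 * T) * ((1 / 2 : ℝ) ^ s * (((m ^ n) ^ R : ℕ) : ℝ)) :=
        mul_le_mul_of_nonneg_right h3 (by positivity)
    _ = _ := by ring

end Pool.Agent.X240.NR
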