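import Pool.Agent.X240.NR.Dp
import Pool.Agent.H671R2.PolyAuto
import Pool.Agent.H578R2.Med.PP
import Pool.Agent.H579R2.Spt.SPoly2

/-!
# The search runs in polynomial time
-/

namespace Pool.Agent.X240.NR

open Pool.Agent.NPC

variable {α β : Type} [TEnc α] [TEnc β]

attribute [local fun_prop] Poly.range_length

theorem poly_adjA {A : α → List (List Bool)} {x y : α → ℕ} (hA : Poly A) (hx : Poly x)
    (hy : Poly y) : Poly (fun a => adjA (A a) (x a) (y a)) := by
  unfold adjA
  fun_prop

theorem poly_hv {χ : α → List ℕ} {x : α → ℕ} (hχ : Poly χ) (hx : Poly x) :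
    Poly (fun a => hv (χ a) (x a)) := by
  unfold hv
  fun_prop

theorem poly_look {s : α → St} {x : α → ℕ} (hs : Poly s) (hx : Poly x) :
    Poly (fun a => look (s a) (x a)) := by
  unfold look
  fun_prop

attribute [local fun_prop] poly_adjA poly_hv poly_look

theorem poly_okx {A : α → List (List Bool)} {s : α → St} {χ : α → List ℕ} {e : α → Ev} {x y : α → ℕ}
    (hA : Poly A) (hs : Poly s) (hχ : Poly χ) (he : Poly e) (hx : Poly x) (hy : Poly y) :
    Poly (fun a => okx (A a) (s a) (χ a) (e a) (x a) (y a)) := by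
  unfold okx
  fun_prop

attribute [local fun_prop] poly_okx

theorem poly_cands {A : α → List (List Bool)} {s : α → St} {χ : α → List ℕ} {L : α → List Ev}
    (hA : Poly A) (hs : Poly s) (hχ : Poly χ) (hL : Poly L) :
    Poly (fun a => cands (A a) (s a) (χ a) (L a)) := by
  unfold cands
  fun_prop

theorem poly_key {B : α → ℕ} {χ : α → List ℕ} {e : α → Ev} (hB : UPoly B) (hχ : Poly χ)
    (he : Poly e) : Poly (fun a => key (B a) (χ a) (e a)) := by
  have h1 := hB.range
  unfold key canon
  fun_prop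

attribute [local fun_prop] poly_cands

theorem sz_ins (B : ℕ) (χ : List ℕ) (acc : List Ev) (e : Ev) :
    sz (ins B χ acc e) ≤ sz acc + sz e + 1 := by
  unfold ins
  cases acc.any (fun e' => decide (key B χ e' = key B χ e)) with
  | true => simp only [cond_true]; omega
  | false => simp only [cond_false, sz_list_cons]; omega

theorem sz_foldl_ins (B : ℕ) (χ : List ℕ) : ∀ (L acc : List Ev),
    sz (L.foldl (ins B χ) acc) ≤ sz acc + sz L
  | [], acc => by simp
  | e :: L, acc => by
    rw [List.foldl_cons, sz_list_cons]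
    have h1 := sz_foldl_ins B χ L (ins B χ acc e)
    have h2 := sz_ins B χ acc e
    omega

theorem poly_ins {B : α → ℕ} {χ : α → List ℕ} {acc : α → List Ev} {e : α → Ev} (hB : UPoly B)
    (hχ : Poly χ) (ha : Poly acc) (he : Poly e) :
    Poly (fun a => ins (B a) (χ a) (acc a) (e a)) := by
  have h1 : Poly (fun a => (acc a).any
      (fun e' => decide (key (B a) (χ a) e' = key (B a) (χ a) (e a)))) := by
    refine Poly.any (p := fun a e' => decide (key (B a) (χ a) e' = key (B a) (χ a) (e a))) ha ?_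
    refine Poly.decide_eq ?_ ?_
    · exact poly_key (α := α × Ev) (B := fun p => B p.1) (χ := fun p => χ p.1) (e := fun p => p.2)
        (hB.comp (Poly.fst Poly.id)) (hχ.comp (Poly.fst Poly.id)) (Poly.snd Poly.id)
    · exact (poly_key hB hχ he).comp (Poly.fst Poly.id)
  unfold ins
  fun_prop

theorem poly_dd {B : α → ℕ} {χ : α → List ℕ} {L : α → List Ev} (hB : UPoly B) (hχ : Poly χ)
    (hL : Poly L) : Poly (fun a => dd (B a) (χ a) (L a)) := by
  unfold dd
  obtain ⟨q, hq⟩ := hL.sz_le
  refine Poly.foldl (F := fun a acc e => ins (B a) (χ a) acc e) hL (NPC.Poly.const [])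
    (poly_ins (hB.comp (Poly.fst Poly.id)) (hχ.comp (Poly.fst Poly.id))
      (Poly.fst (Poly.snd Poly.id)) (Poly.snd (Poly.snd Poly.id))) (q + Polynomial.C 1) ?_
  intro a k _
  have h1 := sz_foldl_ins (B a) (χ a) ((L a).take k) []
  have h2 := NPC.Poly.sz_take_le (L a) k
  have h3 := hq a
  simp only [sz_list_nil, Polynomial.eval_add, Polynomial.eval_C] at h1 ⊢
  change sz (((L a).take k).foldl (ins (B a) (χ a)) []) ≤ _
  omega

theorem poly_stp {A : α → List (List Bool)} {s : α → St} {B : α → ℕ} {χ : α → List ℕ}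
    {q : α → List Ev × List Ev} (hA : Poly A) (hs : Poly s) (hB : UPoly B) (hχ : Poly χ)
    (hq : Poly q) : Poly (fun a => stp (A a) (s a) (B a) (χ a) (q a)) := by
  unfold stp
  have h1 : Poly (fun a => dd (B a) (χ a) (cands (A a) (s a) (χ a) (q a).1)) :=
    poly_dd hB hχ (by fun_prop)
  fun_prop

theorem UPoly.bound {b : α → ℕ} (hb : UPoly b) : ∃ q : Polynomial ℕ, ∀ a, b a ≤ q.eval (sz a) := by
  obtain ⟨q, hq⟩ := Poly.sz_le hb
  refine ⟨q, fun a => ?_⟩
  have h1 := length_lt_sz (List.replicate (b a) ())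
  have h2 := hq a
  rw [List.length_replicate] at h1
  omega

theorem uPoly_size {m : α → ℕ} (hm : Poly m) : UPoly (fun a => Nat.size (m a)) := by
  have h1 : Poly (fun x => (m x).bits) := NPC.Poly.natBits hm
  have h2 := UPoly.length h1
  have h3 : (fun x => Nat.size (m x)) = fun x => (m x).bits.length := by
    funext x
    exact (Nat.size_eq_bits_len _).symm
  rw [h3]
  exact h2

/-- the parameter `T` -/
def TT (n : ℕ) : ℕ := Nat.size n

/-- the parameter `B` -/
def BB (n : ℕ) : ℕ := 8 * TT n + 8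

theorem uPoly_TT {n : α → ℕ} (hn : UPoly n) : UPoly (fun a => TT (n a)) := uPoly_size hn.toPoly

theorem uPoly_BB {n : α → ℕ} (hn : UPoly n) : UPoly (fun a => BB (n a)) :=
  ((UPoly.const 8).mul (uPoly_TT hn)).add (UPoly.const 8)

theorem uPoly_two_BB {n : α → ℕ} (hn : UPoly n) : UPoly (fun a => 2 ^ (BB (n a))) := by
  have h1 : UPoly (fun a => (2 : ℕ) ^ 8 * (2 ^ (Nat.size (n a)) * 2 ^ (Nat.size (n a)) *
    2 ^ (Nat.size (n a)) * 2 ^ (Nat.size (n a)) * 2 ^ (Nat.size (n a)) * 2 ^ (Nat.size (n a)) *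
    2 ^ (Nat.size (n a)) * 2 ^ (Nat.size (n a)))) := by
    have h2 := Pool.Agent.H579R2.Spt.two_pow_size_poly hn
    exact (UPoly.const (2 ^ 8)).mul (((((((h2.mul h2).mul h2).mul h2).mul h2).mul h2).mul h2).mul h2)
  have h3 : (fun a => 2 ^ (BB (n a))) = (fun a => (2 : ℕ) ^ 8 * (2 ^ (Nat.size (n a)) * 2 ^ (Nat.size (n a)) *
    2 ^ (Nat.size (n a)) * 2 ^ (Nat.size (n a)) * 2 ^ (Nat.size (n a)) * 2 ^ (Nat.size (n a)) *
    2 ^ (Nat.size (n a)) * 2 ^ (Nat.size (n a)))) := by
    funext a
    unfold BB TT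
    rw [pow_add, pow_mul']
    ring
  rw [h3]
  exact h1

/-- the bound for the number of the elements of the lists -/
def MM (n : ℕ) : ℕ := (n + 1) ^ 3 * 2 ^ BB n

theorem uPoly_MM {n : α → ℕ} (hn : UPoly n) : UPoly (fun a => MM (n a)) := by
  have h1 := hn.add (UPoly.const 1)
  have h2 : (fun a => MM (n a)) = fun a => ((n a + 1) * (n a + 1) * (n a + 1)) * 2 ^ BB (n a) := by
    funext a
    unfold MM
    ring
  rw [h2]
  exact ((h1.mul h1).mul h1).mul (uPoly_two_BB hn)

theorem sz_val {A : List (List Bool)} {s : St} {χ : List ℕ} {i T : ℕ} {e : Ev}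
    (h : Val A s χ i e) (hi : i ≤ T) : sz e ≤ 2 * (T * (4 * A.length + 2) + 1) + 1 := by
  obtain ⟨P, Q⟩ := e
  have h1 : ∀ l : List ℕ, (∀ x ∈ l, x < A.length) → l.length ≤ T →
      sz l ≤ T * (4 * A.length + 2) + 1 := by
    intro l hl hlT
    have h2 := sz_le_length_mul l (4 * A.length + 1) (fun x hx => by
      have h3 := sz_nat_le x
      have h4 : x.size ≤ x := Nat.size_le.2 Nat.lt_two_pow_self
      have h5 := hl x hx
      omega)
    calc _ ≤ _ := h2
      _ ≤ T * (4 * A.length + 1 + 1) + 1 :=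
        Nat.add_le_add_right (Nat.mul_le_mul_right (4 * A.length + 1 + 1) hlT) 1
      _ = _ := by ring
  rw [sz_pair]
  have h2 := h1 P h.lt1 (by have := h.len1; simp only at this; omega)
  have h3 := h1 Q h.lt2 (by have := h.len2; simp only at this; omega)
  omega

/-- the bound for the sizes of the lists -/
def SS (n : ℕ) : ℕ :=
  (MM n * (2 * (TT n * (4 * n + 2) + 1) + 1 + 1) + 1) +
    (TT n * MM n * (2 * (TT n * (4 * n + 2) + 1) + 1 + 1) + 1) + 1

theorem uPoly_SS {n : α → ℕ} (hn : UPoly n) : UPoly (fun a => SS (n a)) := by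
  unfold SS
  have h1 := uPoly_MM hn
  have h2 := uPoly_TT hn
  have c1 : UPoly (fun _ : α => 1) := UPoly.const 1
  have h3 : UPoly (fun a => 2 * (TT (n a) * (4 * n a + 2) + 1) + 1 + 1) :=
    ((((UPoly.const 2).mul ((h2.mul (((UPoly.const 4).mul hn).add (UPoly.const 2))).add c1))).add
      c1).add c1
  exact (((h1.mul h3).add c1).add (((h2.mul h1).mul h3).add c1)).add c1

theorem sz_stp (A : List (List Bool)) (s : St) (χ : List ℕ) {k : ℕ} (hk : k ≤ TT A.length) :
    sz ((stp A s (BB A.length) χ)^[k] ([([], [])], [])) ≤ SS A.length := by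
  rw [stp_iterate, sz_pair]
  have h1 : sz (Li A s (BB A.length) χ k) ≤
      MM A.length * (2 * (TT A.length * (4 * A.length + 2) + 1) + 1 + 1) + 1 := by
    have h2 := sz_le_length_mul (Li A s (BB A.length) χ k)
      (2 * (TT A.length * (4 * A.length + 2) + 1) + 1) (fun e he => sz_val (Li_sound k e he) hk)
    have h3 := length_Li (A := A) (s := s) (χ := χ) (B := BB A.length) k
    calc _ ≤ _ := h2
      _ ≤ _ := Nat.add_le_add_right (Nat.mul_le_mul_right _ h3) 1
  have h2 : sz (Ai A s (BB A.length) χ k) ≤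
      TT A.length * MM A.length * (2 * (TT A.length * (4 * A.length + 2) + 1) + 1 + 1) + 1 := by
    have h2 := sz_le_length_mul (Ai A s (BB A.length) χ k)
      (2 * (TT A.length * (4 * A.length + 2) + 1) + 1) (fun e he => by
        obtain ⟨i, hi, he⟩ := mem_Ai.1 he
        exact sz_val (Li_sound _ e he) (by omega))
    have h3 := length_Ai (A := A) (s := s) (χ := χ) (B := BB A.length) k
    have h4 : (Ai A s (BB A.length) χ k).length ≤ TT A.length * MM A.length :=
      h3.trans (Nat.mul_le_mul_right _ hk)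
    calc _ ≤ _ := h2
      _ ≤ _ := Nat.add_le_add_right (Nat.mul_le_mul_right _ h4) 1
  unfold SS
  omega

theorem poly_iter {A : α → List (List Bool)} {s : α → St} {χ : α → List ℕ} (hA : Poly A)
    (hs : Poly s) (hχ : Poly χ) : Poly (fun a =>
      (stp (A a) (s a) (BB (A a).length) (χ a))^[TT (A a).length] (([([], [])], []) :
        List Ev × List Ev)) := by
  have hn : UPoly (fun a => (A a).length) := UPoly.length hA
  have hT := uPoly_TT hn
  obtain ⟨q, hq⟩ := UPoly.bound (uPoly_SS hn)
  refine (Poly.iterLen (l := fun a => List.replicate (TT (A a).length) ())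
    (F := fun a q => stp (A a) (s a) (BB (A a).length) (χ a) q)
    (s := fun _ => (([([], [])], []) : List Ev × List Ev)) hT (NPC.Poly.const _) ?_ q ?_).congr
      fun a => ?_
  · exact poly_stp (hA.comp (Poly.fst Poly.id)) (hs.comp (Poly.fst Poly.id))
      ((uPoly_BB hn).comp (Poly.fst Poly.id)) (hχ.comp (Poly.fst Poly.id)) (Poly.snd Poly.id)
  · intro a k hk
    rw [List.length_replicate] at hk
    exact (sz_stp (A a) (s a) (χ a) hk).trans (hq a)
  · rw [List.length_replicate]

theorem poly_closing {A : α → List (List Bool)} {T : α → ℕ} {e : α → Ev} (hA : Poly A)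
    (hT : Poly T) (he : Poly e) : Poly (fun a => closing (A a) (T a) (e a)) := by
  unfold closing
  fun_prop

attribute [local fun_prop] poly_iter poly_closing

/-- **The search runs in polynomial time.** -/
theorem poly_find {A : α → List (List Bool)} {F : α → List (List ℕ)} {s : α → St} (hA : Poly A)
    (hF : Poly F) (hs : Poly s) :
    Poly (fun a => find (A a) (TT (A a).length) (BB (A a).length) (F a) (s a)) := by
  have hT : Poly (fun a => TT (A a).length) := (uPoly_TT (UPoly.length hA)).toPoly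
  unfold find
  refine Poly.head? (Poly.flatMap (F := fun a χ =>
    ((stp (A a) (s a) (BB (A a).length) χ)^[TT (A a).length] (([([], [])], []) :
        List Ev × List Ev)).2.filter (closing (A a) (TT (A a).length))) hF ?_)
  refine Poly.filter (p := fun (p : α × List ℕ) e => closing (A p.1) (TT (A p.1).length) e) ?_ ?_
  · exact Poly.snd (poly_iter (hA.comp (Poly.fst Poly.id)) (hs.comp (Poly.fst Poly.id))
      (Poly.snd Poly.id))
  · exact poly_closing (hA.comp (Poly.fst (Poly.fst Poly.id)))
      (hT.comp (Poly.fst (Poly.fst Poly.id))) (Poly.snd Poly.id)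

end Pool.Agent.X240.NR
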