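import Pool.Agent.X240.NR.Cnt
import Pool.Agent.X240.NR.Perf
import Pool.Agent.X240.NR.PolyF

/-!
# The algorithm and its probability of success
-/

namespace Pool.Agent.X240.NR

open Finset Pool.Agent.NPC

/-! ### Random bits as numbers -/

/-- the two bits -/
def Bit2 : Finset Bool := {true, false}

theorem valB_inj : ∀ {l l' : List Bool}, l.length = l'.length → valB l = valB l' → l = l'
  | [], [], _, _ => rfl
  | [], _ :: _, h, _ => by simp at h
  | _ :: _, [], h, _ => by simp at h
  | b :: l, b' :: l', h, h2 => by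
    simp only [valB_cons] at h2
    have h3 : b = b' := by cases b <;> cases b' <;> simp at h2 ⊢ <;> omega
    subst h3
    have h4 : valB l = valB l' := by omega
    rw [valB_inj (by simpa using h) h4]

section maps

variable {α β : Type} [DecidableEq α] [DecidableEq β]

theorem map_mem_LS {S : Finset α} {S' : Finset β} {f : α → β} (hf : ∀ a ∈ S, f a ∈ S') {m : ℕ}
    {l : List α} (hl : l ∈ LS S m) : l.map f ∈ LS S' m := by
  rw [mem_LS] at hl ⊢
  refine ⟨by simp [hl.1], fun x hx => ?_⟩
  obtain ⟨a, ha, rfl⟩ := List.mem_map.1 hx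
  exact hf a (hl.2 a ha)

omit [DecidableEq β] in
theorem map_injOn {S : Finset α} {f : α → β} (hf : ∀ a ∈ S, ∀ b ∈ S, f a = f b → a = b) :
    ∀ {m : ℕ} {l l' : List α}, l ∈ LS S m → l' ∈ LS S m → l.map f = l'.map f → l = l'
  | 0, l, l', h, h', _ => by
    rw [mem_LS, List.length_eq_zero_iff] at h h'
    rw [h.1, h'.1]
  | m + 1, [], l', h, h', _ => by simp [mem_LS] at h
  | m + 1, a :: l, [], h, h', _ => by simp [mem_LS] at h'
  | m + 1, a :: l, b :: l', h, h', he => by
    rw [mem_LS] at h h'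
    simp only [List.map_cons, List.cons.injEq] at he
    rw [hf a (h.2 a (by simp)) b (h'.2 b (by simp)) he.1,
      map_injOn hf (mem_LS.2 ⟨by simpa using h.1, fun x hx => h.2 x (by simp [hx])⟩)
        (mem_LS.2 ⟨by simpa using h'.1, fun x hx => h'.2 x (by simp [hx])⟩) he.2]

/-- Transport of the count along an injective map. -/
theorem card_map_le {S : Finset α} {S' : Finset β} {f : α → β} (hf : ∀ a ∈ S, f a ∈ S')
    (hi : ∀ a ∈ S, ∀ b ∈ S, f a = f b → a = b) (m : ℕ) (p : List β → Prop) [DecidablePred p] :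
    ((LS S m).filter (fun l => p (l.map f))).card ≤ ((LS S' m).filter p).card := by
  apply card_le_card_of_injOn (fun l => l.map f)
  · intro l hl
    rw [mem_coe, mem_filter] at hl ⊢
    exact ⟨map_mem_LS hf hl.1, hl.2⟩
  · intro l hl l' hl' h
    rw [mem_coe, mem_filter] at hl hl'
    exact map_injOn hi hl.1 hl'.1 h

end maps

theorem chunk_flatten {α : Type} (a : ℕ) : ∀ (m : ℕ) (l : List α), l.length = m * a →
    (chunk a m l).flatten = l
  | 0, l, hl => by
    simp at hl; subst hl; simp [chunk]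
  | m + 1, l, hl => by
    have h1 : l.length = m * a + a := by rw [hl]; ring
    rw [chunk, List.flatten_cons, chunk_flatten a m _ (by simp [h1]), List.take_append_drop]

theorem valB_mem {j : ℕ} {l : List Bool} (hl : l ∈ LS Bit2 j) : valB l ∈ range (2 ^ j) := by
  rw [mem_LS] at hl
  rw [mem_range, ← hl.1]
  exact valB_lt l

/-- the hash function given by a string of bits -/
def toHash (j n : ℕ) (u : List Bool) : List ℕ := (chunk j n u).map valB

theorem toHash_mem {j n : ℕ} {u : List Bool} (hu : u ∈ LS Bit2 (n * j)) :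
    toHash j n u ∈ LS (range (2 ^ j)) n :=
  map_mem_LS (fun _ ha => valB_mem ha) (chunk_mem Bit2 j n u hu)

theorem toHash_inj {j n : ℕ} : ∀ u ∈ LS Bit2 (n * j), ∀ u' ∈ LS Bit2 (n * j),
    toHash j n u = toHash j n u' → u = u' := by
  intro u hu u' hu' h
  have h1 : chunk j n u = chunk j n u' :=
    map_injOn (S := LS Bit2 j) (fun a ha b hb hab => valB_inj
      (by rw [(mem_LS.1 ha).1, (mem_LS.1 hb).1]) hab) (chunk_mem Bit2 j n u hu)
      (chunk_mem Bit2 j n u' hu') h
  rw [← chunk_flatten j n u (mem_LS.1 hu).1, ← chunk_flatten j n u' (mem_LS.1 hu').1, h1]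

/-- the family of hash functions given by a string of bits -/
def famOf (j n R : ℕ) (w : List Bool) : List (List ℕ) := (chunk (n * j) R w).map (toHash j n)

open Classical in
theorem card_famOf (j n R : ℕ) (p : List (List ℕ) → Prop) :
    ((LS Bit2 (R * (n * j))).filter (fun w => p (famOf j n R w))).card ≤
      ((LS (LS (range (2 ^ j)) n) R).filter p).card := by
  have h1 := card_chunk Bit2 (n * j) R (fun l => p (l.map (toHash j n)))
  unfold famOf
  rw [h1]
  exact card_map_le (fun a ha => toHash_mem ha) toHash_inj R p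

/-! ### The parameters -/

/-- the number of bits of a colour -/
def kap (D : ℕ) : ℕ := Nat.size (32 * D ^ 2)

/-- the number of bits of a hash value -/
def jj (n : ℕ) : ℕ := Nat.size (4 * TT n)

/-- the security parameter -/
def ss (n : ℕ) : ℕ := 2 * TT n ^ 2 + 2 * TT n + 2

/-- the number of hash functions -/
def RR (n : ℕ) : ℕ := 4 * n ^ 2 * ss n

/-- the number of steps -/
def NN (n D : ℕ) : ℕ := (kap D + 1) * n + n + 1

theorem two_pow_TT {n : ℕ} (hn : 0 < n) : 2 ^ TT n ≤ 2 * n := by
  unfold TT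
  have h1 : 0 < Nat.size n := Nat.size_pos.2 hn
  have h2 : 2 ^ (Nat.size n - 1) ≤ n := by
    by_contra h
    have := Nat.size_le.2 (not_le.1 h)
    omega
  have h3 : 2 ^ Nat.size n = 2 * 2 ^ (Nat.size n - 1) := by
    rw [← pow_succ']
    congr 1
    omega
  omega

theorem lt_two_pow_TT (n : ℕ) : n < 2 ^ TT n := Nat.lt_size_self n

theorem RR_ge {n : ℕ} (hn : 0 < n) : 4 ^ TT n * ss n ≤ RR n := by
  unfold RR
  apply Nat.mul_le_mul_right
  have h1 := two_pow_TT hn
  calc 4 ^ TT n = (2 ^ TT n) ^ 2 := by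
        rw [← pow_mul, mul_comm, pow_mul]; norm_num
    _ ≤ (2 * n) ^ 2 := Nat.pow_le_pow_left h1 2
    _ = _ := by ring

theorem four_TT_le (n : ℕ) : 4 * TT n ≤ 2 ^ jj n := (Nat.lt_size_self _).le

theorem two_pow_jj_le (n : ℕ) : 2 ^ jj n ≤ BB n := by
  unfold jj BB
  rcases Nat.eq_zero_or_pos (TT n) with h | h
  · rw [h]; simp
  · have h1 : 0 < Nat.size (4 * TT n) := Nat.size_pos.2 (by omega)
    have h2 : 2 ^ (Nat.size (4 * TT n) - 1) ≤ 4 * TT n := by
      by_contra h
      have := Nat.size_le.2 (not_le.1 h)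
      omega
    have h3 : 2 ^ Nat.size (4 * TT n) = 2 * 2 ^ (Nat.size (4 * TT n) - 1) := by
      rw [← pow_succ']
      congr 1
      omega
    omega

/-- The probability that the family is not perfect. -/
theorem prob_notPerfect {n : ℕ} (hn : 0 < n) : open Classical in
    (2 * n : ℝ) * ((LS Bit2 (RR n * (n * jj n))).filter
      (fun w => ¬ Perfect n (TT n) (BB n) (famOf (jj n) n (RR n) w))).card ≤
      2 ^ (RR n * (n * jj n)) := by
  classical
  have h1 : ((LS Bit2 (RR n * (n * jj n))).filter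
      (fun w => ¬ Perfect n (TT n) (BB n) (famOf (jj n) n (RR n) w))).card ≤
      ((LS (LS (range (2 ^ jj n)) n) (RR n)).filter
        (fun F => ¬ Perfect n (TT n) (BB n) F)).card := by
    convert card_famOf (jj n) n (RR n) (fun F => ¬ Perfect n (TT n) (BB n) F)
  have h2 := card_notPerfect (n := n) (m := 2 ^ jj n) (T := TT n) (B := BB n) (s := ss n)
    (R := RR n) (by positivity) (four_TT_le n) (two_pow_jj_le n) (RR_ge hn)
  have h3 : (((2 ^ jj n) ^ n) ^ RR n : ℕ) = 2 ^ (RR n * (n * jj n)) := by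
    rw [← pow_mul, ← pow_mul]
    congr 1
    ring
  rw [h3] at h2
  have h4 : ((n : ℝ) + 1) ^ (2 * TT n) ≤ 2 ^ (2 * TT n ^ 2) := by
    have h5 : (n : ℝ) + 1 ≤ 2 ^ TT n := by exact_mod_cast lt_two_pow_TT n
    calc ((n : ℝ) + 1) ^ (2 * TT n) ≤ (2 ^ TT n) ^ (2 * TT n) :=
          pow_le_pow_left₀ (by positivity) h5 _
      _ = 2 ^ (2 * TT n ^ 2) := by rw [← pow_mul]; congr 1; ring
  have h5 : (2 : ℝ) * n ≤ 2 ^ (2 * TT n + 2) := by
    have h6 : (n : ℝ) ≤ 2 ^ TT n := by exact_mod_cast (lt_two_pow_TT n).le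
    calc (2 : ℝ) * n ≤ 2 * 2 ^ TT n := by linarith
      _ = 2 ^ (TT n + 1) := by rw [pow_succ]; ring
      _ ≤ 2 ^ (2 * TT n + 2) := pow_le_pow_right₀ (by norm_num) (by omega)
  have h6 : ((1 : ℝ) / 2) ^ ss n * 2 ^ (2 * TT n ^ 2) * 2 ^ (2 * TT n + 2) = 1 := by
    have h7 : ss n = 2 * TT n ^ 2 + (2 * TT n + 2) := by unfold ss; ring
    rw [mul_assoc, ← pow_add, ← h7, ← mul_pow]
    norm_num
  calc (2 * n : ℝ) * (((LS Bit2 (RR n * (n * jj n))).filter
      (fun w => ¬ Perfect n (TT n) (BB n) (famOf (jj n) n (RR n) w))).card : ℝ)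
      ≤ 2 ^ (2 * TT n + 2) * ((n + 1) ^ (2 * TT n) * (1 / 2) ^ ss n *
        ((2 ^ (RR n * (n * jj n)) : ℕ) : ℝ)) := by
        apply mul_le_mul h5 _ (by positivity) (by positivity)
        refine le_trans (Nat.cast_le.2 h1) ?_
        convert h2
    _ ≤ 2 ^ (2 * TT n + 2) * (2 ^ (2 * TT n ^ 2) * (1 / 2) ^ ss n *
        ((2 ^ (RR n * (n * jj n)) : ℕ) : ℝ)) := by
        gcongr
    _ = ((1 / 2) ^ ss n * 2 ^ (2 * TT n ^ 2) * 2 ^ (2 * TT n + 2)) *
        ((2 ^ (RR n * (n * jj n)) : ℕ) : ℝ) := by ring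
    _ = _ := by rw [h6]; push_cast; ring

/-! ### The algorithm -/

/-- One step. -/
def stepA (A : List (List Bool)) (F : List (List ℕ)) (s : St) (c : List Bool) : St :=
  if nxt s < s.length then
    (find A (TT A.length) (BB A.length) F (setv s (nxt s) c)).elim (setv s (nxt s) c)
      (fun e => unset (setv s (nxt s) c) (Sys.nrm (nxt s) e).1)
  else s

/-- The colouring procedure; the last colour is used first. -/
def runA (A : List (List Bool)) (F : List (List ℕ)) (cs : List (List Bool)) : St :=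
  cs.foldr (fun c s => stepA A F s c) (List.replicate A.length none)

/-- The system of the procedure. -/
noncomputable def YY (A : List (List Bool)) (F : List (List ℕ)) : Sys (List Bool) :=
  open Classical in
  ⟨A.length, TT A.length, adjP A, find A (TT A.length) (BB A.length) F,
    evs A.length (adjP A) (TT A.length)⟩

theorem runA_eq (A : List (List Bool)) (F : List (List ℕ)) : ∀ cs, runA A F cs = (YY A F).run cs
  | [] => rfl
  | c :: cs => by
    have ih := runA_eq A F cs
    unfold runA at ih ⊢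
    rw [List.foldr_cons, ih, Sys.run, stepA, Sys.step]
    change _ = (if nxt ((YY A F).run cs) < ((YY A F).run cs).length then _ else _ : _ × _).1
    split_ifs
    · change _ = (Option.elim (find A (TT A.length) (BB A.length) F _) _ _ : _ × _).1
      cases find A (TT A.length) (BB A.length) F
        (setv ((YY A F).run cs) (nxt ((YY A F).run cs)) c) <;> rfl
    · rfl

/-- The probability that the procedure does not end with a complete colouring. -/
theorem prob_incomplete {A : List (List Bool)} {F : List (List ℕ)} {D : ℕ} (hD1 : 1 ≤ D)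
    (hsym : ∀ x y, adjP A x y → adjP A y x) (hF : Perfect A.length (TT A.length) (BB A.length) F)
    (hD : open Classical in ∀ x, (nb A.length (adjP A) x).card ≤ D) : open Classical in
    (2 * A.length : ℝ) * ((LS Bit2 (NN A.length D * kap D)).filter
      (fun w => ¬ Sys.Complete (runA A F (chunk (kap D) (NN A.length D) w)))).card ≤
      2 ^ (NN A.length D * kap D) := by
  classical
  rw [card_chunk Bit2 (kap D) (NN A.length D) (fun l => ¬ Sys.Complete (runA A F l))]
  have hY : (YY A F).Ok := ⟨hsym, fun s _ e h => find_sound h,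
    fun s hs h e => find_complete hs hF h e⟩
  have hE : (YY A F).EvOk := fun s hs e he v hv => mem_evs hsym hs he hv
  have hβ : (1 : ℝ) ≤ 8 * (D : ℝ) ^ 2 := by
    have : (1 : ℝ) ≤ D := by exact_mod_cast hD1
    nlinarith
  have hw := weight_evs (n := A.length) (adj := adjP A) (D := D) (T := TT A.length) hD hD1
    (lt_two_pow_TT _).le
  push_cast at hw
  have h1 := Sys.card_incomplete hY hE hβ hw (LS Bit2 (kap D)) (NN A.length D)
  simp only [runA_eq]
  set n := A.length with hn
  have hcard : (LS Bit2 (kap D)).card = 2 ^ kap D := by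
    rw [card_LS]
    rfl
  rw [hcard] at h1
  have h2 : (32 * D ^ 2 : ℝ) ≤ 2 ^ kap D := by exact_mod_cast (Nat.lt_size_self _).le
  have h3 : (2 * (8 * (D : ℝ) ^ 2)) ^ NN n D ≤ (2 ^ kap D / 2) ^ NN n D :=
    pow_le_pow_left₀ (by positivity) (by linarith) _
  have h4 : ((2 ^ kap D : ℕ) + 1 : ℝ) ^ n ≤ 2 ^ ((kap D + 1) * n) := by
    rw [pow_mul]
    apply pow_le_pow_left₀ (by positivity)
    push_cast
    rw [pow_succ]
    have : (1 : ℝ) ≤ 2 ^ kap D := one_le_pow₀ (by norm_num)
    linarith
  have h5 : (2 * n : ℝ) ≤ 2 ^ (n + 1) := by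
    have : (n : ℝ) < 2 ^ n := by exact_mod_cast Nat.lt_two_pow_self
    rw [pow_succ]
    linarith
  have h6 : NN n D = (kap D + 1) * n + (n + 1) := by unfold NN; ring
  have hYn : (YY A F).n = n := rfl
  rw [hYn] at h1
  calc (2 * n : ℝ) * _ ≤ 2 ^ (n + 1) * (((2 ^ kap D : ℕ) + 1 : ℝ) ^ n *
        (2 * (8 * (D : ℝ) ^ 2)) ^ NN n D) := by
        apply mul_le_mul h5 _ (by positivity) (by positivity)
        exact h1
    _ ≤ 2 ^ (n + 1) * (2 ^ ((kap D + 1) * n) * (2 ^ kap D / 2) ^ NN n D) := by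
        gcongr
    _ = 2 ^ NN n D * (2 ^ kap D / 2) ^ NN n D := by
        rw [← mul_assoc, ← pow_add]
        congr 2
        rw [h6]; ring
    _ = (2 ^ kap D) ^ NN n D := by rw [← mul_pow]; congr 1; ring
    _ = 2 ^ (NN n D * kap D) := by rw [← pow_mul]; congr 1; ring

end Pool.Agent.X240.NR
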