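import Pool.Agent.X240.NR.Abs

/-!
# Counting the events
-/

namespace Pool.Agent.X240.NR

open Finset

variable (n : ℕ) (adj : ℕ → ℕ → Prop) [∀ x y, Decidable (adj x y)]

/-- The neighbours. -/
def nb (x : ℕ) : Finset ℕ := (range n).filter (adj x)

/-- Walks with `m` further vertices, from `x`. -/
def W : ℕ → ℕ → Finset (List ℕ)
  | 0, _ => {[]}
  | m + 1, x => (nb n adj x).biUnion (fun y => (W m y).image (fun l => y :: l))

theorem card_W {D : ℕ} (hD : ∀ x, (nb n adj x).card ≤ D) : ∀ (m x : ℕ), (W n adj m x).card ≤ D ^ m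
  | 0, x => by simp [W]
  | m + 1, x => by
    rw [W]
    calc _ ≤ ∑ y ∈ nb n adj x, ((W n adj m y).image (fun l => y :: l)).card := card_biUnion_le
      _ ≤ ∑ y ∈ nb n adj x, D ^ m := sum_le_sum fun y _ => card_image_le.trans (card_W hD m y)
      _ = (nb n adj x).card * D ^ m := by rw [sum_const, smul_eq_mul]
      _ ≤ D * D ^ m := Nat.mul_le_mul_right _ (hD x)
      _ = _ := by rw [pow_succ, mul_comm]

theorem mem_W : ∀ (m x : ℕ) (l : List ℕ), l.length = m → (x :: l).IsChain adj → (∀ y ∈ l, y < n) →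
    l ∈ W n adj m x
  | 0, x, l, h, _, _ => by
    rw [List.length_eq_zero_iff] at h
    subst h
    simp [W]
  | m + 1, x, [], h, _, _ => by simp at h
  | m + 1, x, y :: l, h, hc, hn => by
    rw [W, mem_biUnion]
    rw [List.isChain_cons_cons] at hc
    refine ⟨y, ?_, ?_⟩
    · unfold nb
      rw [mem_filter, mem_range]
      exact ⟨hn y (by simp), hc.1⟩
    · rw [mem_image]
      exact ⟨l, mem_W m y l (by simpa using h) hc.2 fun z hz => hn z (by simp [hz]), rfl⟩

/-- Paths with `t` vertices through `v`. -/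
def Pth (v t : ℕ) : Finset (List ℕ) :=
  (range t).biUnion (fun i => ((W n adj i v) ×ˢ (W n adj (t - 1 - i) v)).image
    (fun p => p.1.reverse ++ v :: p.2))

theorem card_Pth {D : ℕ} (hD : ∀ x, (nb n adj x).card ≤ D) (v t : ℕ) :
    (Pth n adj v t).card ≤ t * D ^ (t - 1) := by
  unfold Pth
  calc _ ≤ ∑ i ∈ range t, (((W n adj i v) ×ˢ (W n adj (t - 1 - i) v)).image
        (fun p => p.1.reverse ++ v :: p.2)).card := card_biUnion_le
    _ ≤ ∑ i ∈ range t, D ^ (t - 1) := by
        apply sum_le_sum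
        intro i hi
        rw [mem_range] at hi
        refine card_image_le.trans ?_
        rw [card_product]
        calc _ ≤ D ^ i * D ^ (t - 1 - i) := Nat.mul_le_mul (card_W n adj hD _ _) (card_W n adj hD _ _)
          _ = D ^ (t - 1) := by rw [← pow_add]; congr 1; omega
    _ = _ := by rw [sum_const, card_range, smul_eq_mul]

variable {n adj}

theorem mem_Pth (hs : ∀ x y, adj x y → adj y x) {v t : ℕ} {P : List ℕ} (hl : P.length = t)
    (hc : P.IsChain adj) (hn : ∀ y ∈ P, y < n) (hv : v ∈ P) : P ∈ Pth n adj v t := by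
  obtain ⟨a, b, rfl⟩ := List.append_of_mem hv
  unfold Pth
  rw [mem_biUnion]
  refine ⟨a.length, ?_, ?_⟩
  · rw [mem_range, ← hl]; simp
  · rw [mem_image]
    refine ⟨(a.reverse, b), ?_, by simp⟩
    rw [mem_product]
    refine ⟨mem_W n adj _ _ _ (by simp) ?_ fun y hy => hn y (by simp at hy; simp [hy]),
      mem_W n adj _ _ _ (by rw [← hl]; simp) ?_ fun y hy => hn y (by simp [hy])⟩
    · have h1 : (a ++ [v]).IsChain adj := by
        rw [List.append_cons] at hc
        exact (List.isChain_append.1 hc).1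
      have h2 := List.isChain_reverse.2 (h1.imp fun x y h => hs x y h)
      simpa using h2
    · exact (List.isChain_append.1 hc).2.1

theorem length_Pth {v t : ℕ} {P : List ℕ} (h : P ∈ Pth n adj v t) : P.length = t := by
  have hW : ∀ (m x : ℕ) (l : List ℕ), l ∈ W n adj m x → l.length = m := by
    intro m
    induction m with
    | zero => intro x l h; simp [W] at h; simp [h]
    | succ m ih =>
      intro x l h
      rw [W, mem_biUnion] at h
      obtain ⟨y, _, h⟩ := h
      rw [mem_image] at h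
      obtain ⟨l', h, rfl⟩ := h
      simp [ih y l' h]
  unfold Pth at h
  rw [mem_biUnion] at h
  obtain ⟨i, hi, h⟩ := h
  rw [mem_image] at h
  obtain ⟨⟨a, b⟩, h, rfl⟩ := h
  rw [mem_product] at h
  rw [mem_range] at hi
  simp [hW _ _ _ h.1, hW _ _ _ h.2]
  omega

variable (n adj)

/-- the first kind of events -/
def E1 (v t : ℕ) : Finset Ev :=
  (Pth n adj v t).biUnion (fun P => (W n adj t (P.getLastD 0)).image (fun Q => (P, Q)))

/-- the second kind of events -/
def E2 (v t : ℕ) : Finset Ev :=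
  (Pth n adj v t).biUnion (fun P => (W n adj t (P.headD 0)).image (fun Q => (P, Q.reverse)))

/-- the third kind of events -/
def E3 (T v : ℕ) : Finset Ev :=
  (Pth n adj v T).biUnion (fun P => ((range n).biUnion
    (fun y => (W n adj (T - 1) y).image (fun l => y :: l))).image (fun Q => (P, Q)))

/-- the finite set of events containing `v` -/
def evs (T v : ℕ) : Finset Ev :=
  (Icc 1 T).biUnion (fun t => E1 n adj v t ∪ E2 n adj v t) ∪ E3 n adj T v

theorem card_E1 {D : ℕ} (hD : ∀ x, (nb n adj x).card ≤ D) (v t : ℕ) :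
    (E1 n adj v t).card ≤ t * D ^ (t - 1) * D ^ t := by
  unfold E1
  calc _ ≤ ∑ P ∈ Pth n adj v t, _ := card_biUnion_le
    _ ≤ ∑ P ∈ Pth n adj v t, D ^ t :=
        sum_le_sum fun P _ => card_image_le.trans (card_W n adj hD _ _)
    _ = (Pth n adj v t).card * D ^ t := by rw [sum_const, smul_eq_mul]
    _ ≤ _ := Nat.mul_le_mul_right _ (card_Pth n adj hD v t)

theorem card_E2 {D : ℕ} (hD : ∀ x, (nb n adj x).card ≤ D) (v t : ℕ) :
    (E2 n adj v t).card ≤ t * D ^ (t - 1) * D ^ t := by
  unfold E2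
  calc _ ≤ ∑ P ∈ Pth n adj v t, _ := card_biUnion_le
    _ ≤ ∑ P ∈ Pth n adj v t, D ^ t :=
        sum_le_sum fun P _ => card_image_le.trans (card_W n adj hD _ _)
    _ = (Pth n adj v t).card * D ^ t := by rw [sum_const, smul_eq_mul]
    _ ≤ _ := Nat.mul_le_mul_right _ (card_Pth n adj hD v t)

theorem card_E3 {D : ℕ} (hD : ∀ x, (nb n adj x).card ≤ D) (T v : ℕ) :
    (E3 n adj T v).card ≤ T * D ^ (T - 1) * (n * D ^ (T - 1)) := by
  unfold E3
  have h1 : ((range n).biUnion
      (fun y => (W n adj (T - 1) y).image (fun l => y :: l))).card ≤ n * D ^ (T - 1) := by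
    calc _ ≤ ∑ y ∈ range n, _ := card_biUnion_le
      _ ≤ ∑ y ∈ range n, D ^ (T - 1) :=
          sum_le_sum fun y _ => card_image_le.trans (card_W n adj hD _ _)
      _ = _ := by rw [sum_const, card_range, smul_eq_mul]
  calc _ ≤ ∑ P ∈ Pth n adj v T, _ := card_biUnion_le
    _ ≤ ∑ P ∈ Pth n adj v T, n * D ^ (T - 1) :=
        sum_le_sum fun P _ => card_image_le.trans h1
    _ = (Pth n adj v T).card * (n * D ^ (T - 1)) := by rw [sum_const, smul_eq_mul]
    _ ≤ _ := Nat.mul_le_mul_right _ (card_Pth n adj hD v T)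

theorem sum_union_le {α : Type} [DecidableEq α] (s t : Finset α) (f : α → ℝ) (hf : ∀ a, 0 ≤ f a) :
    ∑ a ∈ s ∪ t, f a ≤ ∑ a ∈ s, f a + ∑ a ∈ t, f a := by
  have := sum_union_inter (s₁ := s) (s₂ := t) (f := f)
  have h2 : 0 ≤ ∑ a ∈ s ∩ t, f a := sum_nonneg fun _ _ => hf _
  linarith

theorem sum_biUnion_le {α β : Type} [DecidableEq α] [DecidableEq β] (s : Finset β)
    (t : β → Finset α) (f : α → ℝ) (hf : ∀ a, 0 ≤ f a) :
    ∑ a ∈ s.biUnion t, f a ≤ ∑ b ∈ s, ∑ a ∈ t b, f a := by
  induction s using Finset.induction_on with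
  | empty => simp
  | insert a S ha ih2 =>
    rw [biUnion_insert, sum_insert ha]
    exact (sum_union_le _ _ f hf).trans (by linarith)

theorem two_mul_le_two_pow (t : ℕ) : 2 * t ≤ 2 ^ t := by
  induction t with
  | zero => simp
  | succ t ih =>
    rcases t with _ | t
    · simp
    · rw [pow_succ]; omega

theorem le_four_pow {T : ℕ} (hT : 1 ≤ T) : T * 4 ≤ 4 ^ T := by
  induction T, hT using Nat.le_induction with
  | base => norm_num
  | succ T hT ih => rw [pow_succ]; omega

/-- The weight bound. -/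
theorem weight_evs {D T : ℕ} (hD : ∀ x, (nb n adj x).card ≤ D) (hD1 : 1 ≤ D) (hn : n ≤ 2 ^ T)
    (v : ℕ) : ∑ e ∈ evs n adj T v, (((8 * D ^ 2 : ℕ) : ℝ)⁻¹) ^ e.1.length ≤ 1 := by
  set b : ℝ := ((8 * D ^ 2 : ℕ) : ℝ)⁻¹ with hb
  have hDr : (1 : ℝ) ≤ D := by exact_mod_cast hD1
  have hb0 : 0 ≤ b := by positivity
  have hE : ∀ (t : ℕ) (E : Finset Ev), (∀ e ∈ E, e.1.length = t) →
      ∑ e ∈ E, b ^ e.1.length = E.card * b ^ t := by
    intro t E h
    rw [sum_congr rfl (fun e he => by rw [h e he]), sum_const, nsmul_eq_mul]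
  have hl1 : ∀ t, ∀ e ∈ E1 n adj v t, e.1.length = t := by
    intro t e he
    unfold E1 at he
    rw [mem_biUnion] at he
    obtain ⟨P, hP, he⟩ := he
    rw [mem_image] at he
    obtain ⟨Q, _, rfl⟩ := he
    exact length_Pth hP
  have hl2 : ∀ t, ∀ e ∈ E2 n adj v t, e.1.length = t := by
    intro t e he
    unfold E2 at he
    rw [mem_biUnion] at he
    obtain ⟨P, hP, he⟩ := he
    rw [mem_image] at he
    obtain ⟨Q, _, rfl⟩ := he
    exact length_Pth hP
  have hl3 : ∀ e ∈ E3 n adj T v, e.1.length = T := by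
    intro e he
    unfold E3 at he
    rw [mem_biUnion] at he
    obtain ⟨P, hP, he⟩ := he
    rw [mem_image] at he
    obtain ⟨Q, _, rfl⟩ := he
    exact length_Pth hP
  have hDb : (D : ℝ) ^ 2 * b = 1 / 8 := by
    rw [hb]
    push_cast
    field_simp
  -- the terms for t
  have ht : ∀ t ∈ Icc 1 T, ∑ e ∈ E1 n adj v t ∪ E2 n adj v t, b ^ e.1.length ≤
      (1 / 4 : ℝ) ^ t := by
    intro t ht
    rw [mem_Icc] at ht
    have c1 : ((E1 n adj v t).card : ℝ) ≤ t * (D : ℝ) ^ (t - 1) * D ^ t := by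
      exact_mod_cast card_E1 n adj hD v t
    have c2 : ((E2 n adj v t).card : ℝ) ≤ t * (D : ℝ) ^ (t - 1) * D ^ t := by
      exact_mod_cast card_E2 n adj hD v t
    calc _ ≤ ∑ e ∈ E1 n adj v t, b ^ e.1.length + ∑ e ∈ E2 n adj v t, b ^ e.1.length :=
          sum_union_le _ _ _ fun _ => by positivity
      _ = ((E1 n adj v t).card + (E2 n adj v t).card) * b ^ t := by
          rw [hE t _ (hl1 t), hE t _ (hl2 t)]; ring
      _ ≤ (t * (D : ℝ) ^ (t - 1) * D ^ t + t * (D : ℝ) ^ (t - 1) * D ^ t) * b ^ t := by gcongr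
      _ ≤ (t * (D : ℝ) ^ t * D ^ t + t * (D : ℝ) ^ t * D ^ t) * b ^ t := by
          gcongr <;> first | exact hDr | omega
      _ = (2 * t : ℕ) * ((D : ℝ) ^ 2 * b) ^ t := by
          push_cast
          rw [mul_pow, ← pow_mul, mul_comm 2 t, pow_mul]
          ring
      _ = (2 * t : ℕ) * (1 / 8 : ℝ) ^ t := by rw [hDb]
      _ ≤ (2 ^ t : ℕ) * (1 / 8 : ℝ) ^ t := by
          gcongr
          exact two_mul_le_two_pow t
      _ = (1 / 4 : ℝ) ^ t := by
          push_cast
          rw [← mul_pow]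
          norm_num
  have h3 : ∑ e ∈ E3 n adj T v, b ^ e.1.length ≤ 1 / 4 := by
    rcases Nat.eq_zero_or_pos T with h0 | hT
    · subst h0
      have : E3 n adj 0 v = ∅ := by
        unfold E3 Pth
        simp
      rw [this]
      norm_num
    · have c3 : ((E3 n adj T v).card : ℝ) ≤ T * (D : ℝ) ^ (T - 1) * (n * D ^ (T - 1)) := by
        exact_mod_cast card_E3 n adj hD T v
      have hn' : (n : ℝ) ≤ 2 ^ T := by exact_mod_cast hn
      rw [hE T _ hl3]
      calc _ ≤ (T * (D : ℝ) ^ (T - 1) * (n * D ^ (T - 1))) * b ^ T := by gcongr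
        _ ≤ (T * (D : ℝ) ^ T * (2 ^ T * D ^ T)) * b ^ T := by
            gcongr <;> first | exact hDr | omega
        _ = T * 2 ^ T * ((D : ℝ) ^ 2 * b) ^ T := by
            rw [mul_pow, ← pow_mul, mul_comm 2 T, pow_mul]
            ring
        _ = T * (1 / 4 : ℝ) ^ T := by
            rw [hDb, mul_assoc, ← mul_pow]
            norm_num
        _ ≤ 1 / 4 := by
            have h4 : ((T * 4 : ℕ) : ℝ) ≤ ((4 ^ T : ℕ) : ℝ) := by exact_mod_cast le_four_pow hT
            push_cast at h4
            rw [div_pow, one_pow, mul_one_div, div_le_div_iff₀ (by positivity) (by norm_num)]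
            linarith
  have hg : ∑ t ∈ Icc 1 T, (1 / 4 : ℝ) ^ t ≤ 1 / 3 := by
    have h1 : ∀ T : ℕ, ∑ t ∈ Icc 1 T, (1 / 4 : ℝ) ^ t = 1 / 3 - 1 / 3 * (1 / 4) ^ T := by
      intro T
      induction T with
      | zero => simp
      | succ T ih =>
        rw [sum_Icc_succ_top (by omega), ih, pow_succ]
        ring
    rw [h1]
    have : (0 : ℝ) ≤ 1 / 3 * (1 / 4) ^ T := by positivity
    linarith
  unfold evs
  calc _ ≤ ∑ e ∈ (Icc 1 T).biUnion (fun t => E1 n adj v t ∪ E2 n adj v t), b ^ e.1.length +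
        ∑ e ∈ E3 n adj T v, b ^ e.1.length := sum_union_le _ _ _ fun _ => by positivity
    _ ≤ ∑ t ∈ Icc 1 T, ∑ e ∈ E1 n adj v t ∪ E2 n adj v t, b ^ e.1.length +
        ∑ e ∈ E3 n adj T v, b ^ e.1.length := by
        gcongr
        exact sum_biUnion_le _ _ _ fun _ => by positivity
    _ ≤ ∑ t ∈ Icc 1 T, (1 / 4 : ℝ) ^ t + 1 / 4 := by
        gcongr with t ht'
        exact ht t ht'
    _ ≤ 1 := by linarith

variable {n adj}

/-- Every bad event is in the finite sets. -/
theorem mem_evs {Col : Type} {T : ℕ} (hs : ∀ x y, adj x y → adj y x) {s : List (Option Col)}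
    (hl : s.length = n) {e : Ev} (he : IsBad adj T s e) {v : ℕ} (hv : v ∈ (Sys.nrm v e).1) :
    Sys.nrm v e ∈ evs n adj T v := by
  have hlt : ∀ x, x ∈ e.1 ∨ x ∈ e.2 → x < n := fun x hx => by
    rw [← hl]; exact lt_of_isSome (he.isSome' x hx)
  have hpos : 1 ≤ e.1.length := List.length_pos_iff.2 he.pos
  obtain ⟨P, Q⟩ := e
  simp only at hlt hpos
  have h3 : ∀ P Q : List ℕ, P.length = T → Q.length = T → 1 ≤ T → P.IsChain adj → Q.IsChain adj →
      (∀ x ∈ P, x < n) → (∀ x ∈ Q, x < n) → v ∈ P → (P, Q) ∈ E3 n adj T v := by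
    intro P Q hP hQ h1 hcP hcQ hnP hnQ hv
    unfold E3
    rw [mem_biUnion]
    refine ⟨P, mem_Pth hs hP hcP hnP hv, ?_⟩
    rw [mem_image]
    refine ⟨Q, ?_, rfl⟩
    cases Q with
    | nil => simp at hQ; omega
    | cons y Q =>
      rw [mem_biUnion]
      refine ⟨y, mem_range.2 (hnQ y (by simp)), ?_⟩
      rw [mem_image]
      exact ⟨Q, mem_W n adj _ _ _ (by simp at hQ; omega) hcQ fun z hz => hnQ z (by simp [hz]), rfl⟩
  unfold evs
  rw [mem_union, mem_biUnion]
  have hlen := he.len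
  have hle := he.le
  have hc1 := he.ch1
  have hc2 := he.ch2
  simp only at hlen hle hc1 hc2
  unfold Sys.nrm at hv ⊢
  split_ifs at hv ⊢ with hvP
  · simp only at hvP hv
    rcases he.close with h | h
    · right
      simp only at h
      exact h3 P Q h (by omega) (by omega) hc1 hc2 (fun x hx => hlt x (Or.inl hx))
        (fun x hx => hlt x (Or.inr hx)) hv
    · left
      simp only at h
      refine ⟨P.length, mem_Icc.2 ⟨hpos, hle⟩, ?_⟩
      rw [mem_union]
      left
      unfold E1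
      rw [mem_biUnion]
      refine ⟨P, mem_Pth hs rfl hc1 (fun x hx => hlt x (Or.inl hx)) hv, ?_⟩
      rw [mem_image]
      refine ⟨Q, mem_W n adj _ _ _ hlen.symm ?_ fun z hz => hlt z (Or.inr hz), rfl⟩
      rw [List.isChain_cons]
      refine ⟨fun y hy => ?_, hc2⟩
      apply h _ _ y hy
      rw [List.getLastD_eq_getLast?]
      cases hh : P.getLast? with
      | none => rw [List.getLast?_eq_none_iff] at hh; subst hh; simp at hpos
      | some z => simp
  · simp only at hvP hv
    rcases he.close with h | h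
    · right
      simp only at h
      exact h3 Q P (by omega) h (by omega) hc2 hc1 (fun x hx => hlt x (Or.inr hx))
        (fun x hx => hlt x (Or.inl hx)) hv
    · left
      simp only at h
      refine ⟨P.length, mem_Icc.2 ⟨hpos, hle⟩, ?_⟩
      rw [mem_union]
      right
      unfold E2
      rw [mem_biUnion]
      refine ⟨Q, mem_Pth hs hlen.symm hc2 (fun x hx => hlt x (Or.inr hx)) hv, ?_⟩
      rw [mem_image]
      refine ⟨P.reverse, mem_W n adj _ _ _ (by simp) ?_ fun z hz => hlt z (Or.inl (by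
        simpa using hz)), by simp⟩
      rw [List.isChain_cons]
      constructor
      · intro y hy
        rw [List.head?_reverse] at hy
        apply hs
        apply h y hy
        rw [List.headD_eq_head?_getD]
        cases hh : Q.head? with
        | none => rw [List.head?_eq_none_iff] at hh; subst hh; simp at hlen; simp [hlen] at hpos
        | some z => simp
      · exact List.isChain_reverse.2 (hc1.imp fun x y h => hs x y h)

end Pool.Agent.X240.NR
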