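import Mathlib

/-!
# Nonrepetitive colourings
-/

namespace Pool.Agent.X240.NR

/-- The vertex colouring `c` of `G` is nonrepetitive: `G` has no path which consists of a sequence
`P` of `t ≥ 1` vertices followed by a sequence `Q` of `t` vertices such that `P` and `Q` have the
same sequence of colours.  (A path is a sequence of different vertices in which consecutive vertices
are adjacent.) -/
def Nonrepetitive {V C : Type} (G : SimpleGraph V) (c : V → C) : Prop :=
  ∀ P Q : List V, P ≠ [] → P.length = Q.length → (P ++ Q).Nodup → (P ++ Q).IsChain G.Adj →
    P.map c ≠ Q.map c

end Pool.Agent.X240.NR
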