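import Pool.Agent.X240.NR.Abs

/-!
# Search for bad events by colour coding
-/

namespace Pool.Agent.X240.NR

/-- Adjacency in a matrix. -/
def adjA (A : List (List Bool)) (x y : ℕ) : Bool := (A.getD x []).getD y false

/-- A finite set of numbers below `B` in canonical form. -/
def canon (B : ℕ) (U : List ℕ) : List ℕ := (List.range B).filter (fun i => decide (i ∈ U))

/-- The hash value. -/
def hv (χ : List ℕ) (x : ℕ) : ℕ := χ.getD x 0

/-- The key of a pair of sequences. -/
def key (B : ℕ) (χ : List ℕ) (e : Ev) : Option ℕ × Option ℕ × Option ℕ × List ℕ :=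
  (e.1.head?, e.2.head?, e.1.reverse.head?, canon B ((e.1 ++ e.2).map (fun x => hv χ x)))

/-- The colours of partial colourings are lists of bits. -/
abbrev St := List (Option (List Bool))

/-- Can the pair be extended by the vertices `x`, `y`? -/
def okx (A : List (List Bool)) (s : St) (χ : List ℕ) (e : Ev) (x y : ℕ) : Bool :=
  decide (look s x ≠ none ∧ look s x = look s y ∧ hv χ x ≠ hv χ y ∧
    ¬ hv χ x ∈ (e.1 ++ e.2).map (fun x => hv χ x) ∧ ¬ hv χ y ∈ (e.1 ++ e.2).map (fun x => hv χ x)) &&
  (e.1.head?.elim true (fun z => adjA A x z)) && (e.2.head?.elim true (fun z => adjA A y z))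

/-- All extensions. -/
def cands (A : List (List Bool)) (s : St) (χ : List ℕ) (L : List Ev) : List Ev :=
  L.flatMap (fun e => (List.range A.length).flatMap (fun x => (List.range A.length).flatMap
    (fun y => bif okx A s χ e x y then [(x :: e.1, y :: e.2)] else [])))

/-- Insert if the key is new. -/
def ins (B : ℕ) (χ : List ℕ) (acc : List Ev) (e : Ev) : List Ev :=
  bif acc.any (fun e' => decide (key B χ e' = key B χ e)) then acc else e :: acc

/-- Keep one element for every key. -/
def dd (B : ℕ) (χ : List ℕ) (L : List Ev) : List Ev := L.foldl (ins B χ) []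

/-- One step of the dynamic programming: the current list and the list of all elements. -/
def stp (A : List (List Bool)) (s : St) (B : ℕ) (χ : List ℕ) (q : List Ev × List Ev) :
    List Ev × List Ev :=
  (dd B χ (cands A s χ q.1), dd B χ (cands A s χ q.1) ++ q.2)

/-- The closing condition. -/
def closing (A : List (List Bool)) (T : ℕ) (e : Ev) : Bool :=
  decide (e.1.length = T) ||
    e.1.reverse.head?.elim true (fun x => e.2.head?.elim true (fun y => adjA A x y))

/-- The search for a bad event. -/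
def find (A : List (List Bool)) (T B : ℕ) (F : List (List ℕ)) (s : St) : Option Ev :=
  (F.flatMap (fun χ => ((stp A s B χ)^[T] ([([], [])], [])).2.filter (closing A T))).head?

/-! ### Removing duplicates -/

theorem ins_spec (B : ℕ) (χ : List ℕ) (acc : List Ev) (e : Ev) :
    (∀ e' ∈ ins B χ acc e, e' ∈ acc ∨ e' = e) ∧ (∀ e' ∈ acc, e' ∈ ins B χ acc e) ∧
    (∃ e' ∈ ins B χ acc e, key B χ e' = key B χ e) ∧
    ((acc.map (key B χ)).Nodup → ((ins B χ acc e).map (key B χ)).Nodup) := by
  unfold ins
  by_cases h : acc.any (fun e' => decide (key B χ e' = key B χ e)) = true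
  · rw [h]
    simp only [cond_true]
    rw [List.any_eq_true] at h
    obtain ⟨e', he', h⟩ := h
    exact ⟨fun e' h => Or.inl h, fun _ h => h, ⟨e', he', of_decide_eq_true h⟩, id⟩
  · rw [Bool.not_eq_true] at h
    rw [h]
    simp only [cond_false]
    rw [List.any_eq_false] at h
    refine ⟨fun e' h => ?_, fun e' h => List.mem_cons_of_mem _ h, ⟨e, by simp, rfl⟩, fun h2 => ?_⟩
    · rcases List.mem_cons.1 h with h | h
      · exact Or.inr h
      · exact Or.inl h
    · rw [List.map_cons, List.nodup_cons]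
      refine ⟨?_, h2⟩
      rw [List.mem_map]
      rintro ⟨e', he', hk⟩
      exact h e' he' (by simpa using hk)

theorem foldl_ins_spec (B : ℕ) (χ : List ℕ) : ∀ (L acc : List Ev),
    (∀ e' ∈ L.foldl (ins B χ) acc, e' ∈ acc ∨ e' ∈ L) ∧
    (∀ e' ∈ acc, e' ∈ L.foldl (ins B χ) acc) ∧
    (∀ e ∈ L, ∃ e' ∈ L.foldl (ins B χ) acc, key B χ e' = key B χ e) ∧
    ((acc.map (key B χ)).Nodup → ((L.foldl (ins B χ) acc).map (key B χ)).Nodup)
  | [], acc => by simp
  | e :: L, acc => by
    obtain ⟨h1, h2, h3, h4⟩ := ins_spec B χ acc e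
    obtain ⟨g1, g2, g3, g4⟩ := foldl_ins_spec B χ L (ins B χ acc e)
    rw [List.foldl_cons]
    refine ⟨fun e' he' => ?_, fun e' he' => g2 e' (h2 e' he'), fun a ha => ?_, fun h => g4 (h4 h)⟩
    · rcases g1 e' he' with h | h
      · rcases h1 e' h with h | h
        · exact Or.inl h
        · exact Or.inr (by simp [h])
      · exact Or.inr (by simp [h])
    · rcases List.mem_cons.1 ha with rfl | ha
      · obtain ⟨e', he', hk⟩ := h3
        exact ⟨e', g2 e' he', hk⟩
      · exact g3 a ha

theorem mem_dd {B : ℕ} {χ : List ℕ} {L : List Ev} {e : Ev} (h : e ∈ dd B χ L) : e ∈ L := by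
  rcases (foldl_ins_spec B χ L []).1 e h with h | h
  · simp at h
  · exact h

theorem exists_dd {B : ℕ} {χ : List ℕ} {L : List Ev} {e : Ev} (h : e ∈ L) :
    ∃ e' ∈ dd B χ L, key B χ e' = key B χ e := (foldl_ins_spec B χ L []).2.2.1 e h

theorem nodup_dd (B : ℕ) (χ : List ℕ) (L : List Ev) : ((dd B χ L).map (key B χ)).Nodup :=
  (foldl_ins_spec B χ L []).2.2.2 (by simp)

/-! ### The dynamic programming -/

/-- The current list after `i` steps. -/
def Li (A : List (List Bool)) (s : St) (B : ℕ) (χ : List ℕ) : ℕ → List Ev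
  | 0 => [([], [])]
  | i + 1 => dd B χ (cands A s χ (Li A s B χ i))

/-- The collected list after `i` steps. -/
def Ai (A : List (List Bool)) (s : St) (B : ℕ) (χ : List ℕ) : ℕ → List Ev
  | 0 => []
  | i + 1 => Li A s B χ (i + 1) ++ Ai A s B χ i

theorem stp_iterate (A : List (List Bool)) (s : St) (B : ℕ) (χ : List ℕ) (i : ℕ) :
    (stp A s B χ)^[i] ([([], [])], []) = (Li A s B χ i, Ai A s B χ i) := by
  induction i with
  | zero => rfl
  | succ i ih => rw [Function.iterate_succ_apply', ih]; rfl

theorem mem_Ai {A : List (List Bool)} {s : St} {B : ℕ} {χ : List ℕ} {e : Ev} : ∀ {T : ℕ},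
    e ∈ Ai A s B χ T ↔ ∃ i, i < T ∧ e ∈ Li A s B χ (i + 1)
  | 0 => by simp [Ai]
  | T + 1 => by
    rw [Ai, List.mem_append, mem_Ai]
    constructor
    · rintro (h | ⟨i, hi, h⟩)
      · exact ⟨T, by omega, h⟩
      · exact ⟨i, by omega, h⟩
    · rintro ⟨i, hi, h⟩
      rcases Nat.lt_succ_iff_lt_or_eq.1 hi with h' | rfl
      · exact Or.inr ⟨i, h', h⟩
      · exact Or.inl h

/-- The pairs found by the dynamic programming. -/
structure Val (A : List (List Bool)) (s : St) (χ : List ℕ) (i : ℕ) (e : Ev) : Prop where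
  len1 : e.1.length = i
  len2 : e.2.length = i
  ch1 : e.1.IsChain (fun x y => adjA A x y = true)
  ch2 : e.2.IsChain (fun x y => adjA A x y = true)
  col : e.1.map (look s) = e.2.map (look s)
  isSome : ∀ x ∈ e.1, look s x ≠ none
  nodup : ((e.1 ++ e.2).map (fun x => hv χ x)).Nodup
  lt1 : ∀ x ∈ e.1, x < A.length
  lt2 : ∀ x ∈ e.2, x < A.length

theorem mem_cands {A : List (List Bool)} {s : St} {χ : List ℕ} {L : List Ev} {e : Ev} :
    e ∈ cands A s χ L ↔ ∃ e0 ∈ L, ∃ x < A.length, ∃ y < A.length, okx A s χ e0 x y = true ∧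
      e = (x :: e0.1, y :: e0.2) := by
  unfold cands
  simp only [List.mem_flatMap, List.mem_range]
  constructor
  · rintro ⟨e0, h0, x, hx, y, hy, h⟩
    refine ⟨e0, h0, x, hx, y, hy, ?_⟩
    cases hh : okx A s χ e0 x y <;> simp [hh] at h ⊢
    exact h
  · rintro ⟨e0, h0, x, hx, y, hy, h1, h2⟩
    exact ⟨e0, h0, x, hx, y, hy, by simp [h1, h2]⟩

theorem okx_iff {A : List (List Bool)} {s : St} {χ : List ℕ} {e : Ev} {x y : ℕ} :
    okx A s χ e x y = true ↔ look s x ≠ none ∧ look s x = look s y ∧ hv χ x ≠ hv χ y ∧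
    hv χ x ∉ (e.1 ++ e.2).map (fun x => hv χ x) ∧ hv χ y ∉ (e.1 ++ e.2).map (fun x => hv χ x) ∧
    (∀ z ∈ e.1.head?, adjA A x z = true) ∧ (∀ z ∈ e.2.head?, adjA A y z = true) := by
  unfold okx
  rw [Bool.and_eq_true, Bool.and_eq_true, decide_eq_true_eq]
  have h : ∀ (o : Option ℕ) (p : ℕ → Bool), o.elim true p = true ↔ ∀ z ∈ o, p z = true := by
    intro o p
    cases o <;> simp
  rw [h, h]
  tauto

theorem val_cons {A : List (List Bool)} {s : St} {χ : List ℕ} {i : ℕ} {P Q : List ℕ} {x y : ℕ} :
    Val A s χ (i + 1) (x :: P, y :: Q) ↔ Val A s χ i (P, Q) ∧ x < A.length ∧ y < A.length ∧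
      okx A s χ (P, Q) x y = true := by
  rw [okx_iff]
  constructor
  · intro h
    have h1 := h.len1
    have h2 := h.len2
    have h3 := h.ch1
    have h4 := h.ch2
    have h5 := h.col
    have h6 := h.isSome
    have h7 := h.nodup
    have h8 := h.lt1
    have h9 := h.lt2
    simp only [List.length_cons, Nat.add_right_cancel_iff, List.isChain_cons, List.map_cons,
      List.cons.injEq, List.mem_cons, forall_eq_or_imp, List.cons_append, List.map_append,
      List.nodup_cons, List.mem_append, List.nodup_append, not_or] at h1 h2 h3 h4 h5 h6 h7 h8 h9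
    obtain ⟨h71, h72, h73, h74⟩ := h7
    have hP : hv χ y ∉ P.map (fun x => hv χ x) := fun hm => (h74 _ hm).1 rfl
    refine ⟨⟨h1, h2, h3.2, h4.2, h5.2, h6.2, ?_, h8.2, h9.2⟩, h8.1, h9.1, h6.1, h5.1, ?_, ?_, ?_,
      h3.1, h4.1⟩
    · rw [List.map_append, List.nodup_append]
      exact ⟨h72, h73.2, fun a ha b hb => (h74 a ha).2 b hb⟩
    · exact h71.2.1
    · rw [List.map_append, List.mem_append, not_or]
      exact ⟨h71.1, h71.2.2⟩
    · rw [List.map_append, List.mem_append, not_or]
      exact ⟨hP, h73.1⟩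
  · rintro ⟨h, hx, hy, k1, k2, k3, k4, k5, k6, k7⟩
    have h7 := h.nodup
    rw [List.map_append, List.nodup_append] at h7
    simp only [List.map_append, List.mem_append, not_or] at k4 k5
    refine ⟨by simp [h.len1], by simp [h.len2], ?_, ?_, ?_, ?_, ?_, ?_, ?_⟩
    · rw [List.isChain_cons]; exact ⟨k6, h.ch1⟩
    · rw [List.isChain_cons]; exact ⟨k7, h.ch2⟩
    · simp only [List.map_cons, List.cons.injEq]; exact ⟨k2, h.col⟩
    · simp only [List.mem_cons, forall_eq_or_imp]; exact ⟨k1, h.isSome⟩
    · simp only [List.cons_append, List.map_cons, List.map_append, List.nodup_cons,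
        List.mem_append, List.mem_cons, not_or, List.nodup_append]
      refine ⟨⟨k4.1, k3, k4.2⟩, h7.1, ⟨k5.2, h7.2.1⟩, ?_⟩
      intro a ha b hb
      rcases hb with rfl | hb
      · rintro rfl
        exact k5.1 ha
      · exact h7.2.2 a ha b hb
    · simp only [List.mem_cons, forall_eq_or_imp]; exact ⟨hx, h.lt1⟩
    · simp only [List.mem_cons, forall_eq_or_imp]; exact ⟨hy, h.lt2⟩

theorem Li_sound {A : List (List Bool)} {s : St} {B : ℕ} {χ : List ℕ} : ∀ (i : ℕ), ∀ e ∈
    Li A s B χ i, Val A s χ i e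
  | 0, e, he => by
    simp only [Li, List.mem_singleton] at he
    subst he
    exact ⟨rfl, rfl, by simp, by simp, rfl, by simp, by simp, by simp, by simp⟩
  | i + 1, e, he => by
    rw [Li] at he
    obtain ⟨e0, h0, x, hx, y, hy, hok, rfl⟩ := mem_cands.1 (mem_dd he)
    exact val_cons.2 ⟨Li_sound i e0 h0, hx, hy, hok⟩

theorem canon_eq_iff {B : ℕ} {U U' : List ℕ} :
    canon B U = canon B U' ↔ ∀ i < B, (i ∈ U ↔ i ∈ U') := by
  unfold canon
  constructor
  · intro h i hi
    have : i ∈ (List.range B).filter (fun i => decide (i ∈ U)) ↔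
        i ∈ (List.range B).filter (fun i => decide (i ∈ U')) := by rw [h]
    simpa [hi] using this
  · intro h
    apply List.filter_congr
    intro i hi
    rw [List.mem_range] at hi
    simp [h i hi]

theorem key_cons {B : ℕ} {χ : List ℕ} {P Q P' Q' : List ℕ} (x y : ℕ)
    (h : key B χ (P, Q) = key B χ (P', Q')) : key B χ (x :: P, y :: Q) = key B χ (x :: P', y :: Q') := by
  unfold key at h ⊢
  simp only [Prod.mk.injEq] at h
  obtain ⟨_, _, h3, h4⟩ := h
  simp only [List.head?_cons, List.reverse_cons, List.head?_append, h3, Prod.mk.injEq, true_and]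
  rw [canon_eq_iff] at h4 ⊢
  intro i hi
  have := h4 i hi
  simp only [List.map_append, List.mem_append, List.cons_append, List.map_cons, List.mem_cons] at this ⊢
  tauto

theorem Li_complete {A : List (List Bool)} {s : St} {B : ℕ} {χ : List ℕ}
    (hχ : ∀ x, hv χ x < B) : ∀ (i : ℕ) (e : Ev), Val A s χ i e →
    ∃ e' ∈ Li A s B χ i, key B χ e' = key B χ e
  | 0, (P, Q), h => by
    have h1 := h.len1
    have h2 := h.len2
    simp only [List.length_eq_zero_iff] at h1 h2
    subst h1 h2
    exact ⟨([], []), by simp [Li], rfl⟩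
  | i + 1, ([], Q), h => by have := h.len1; simp at this
  | i + 1, (_ :: _, []), h => by have := h.len2; simp at this
  | i + 1, (x :: P, y :: Q), h => by
    obtain ⟨h1, hx, hy, hok⟩ := val_cons.1 h
    obtain ⟨⟨P', Q'⟩, hm, hk⟩ := Li_complete hχ i (P, Q) h1
    have hok' : okx A s χ (P', Q') x y = true := by
      rw [okx_iff] at hok ⊢
      have hk' := hk
      unfold key at hk'
      simp only [Prod.mk.injEq] at hk'
      obtain ⟨k1, k2, k3, k4⟩ := hk'
      rw [canon_eq_iff] at k4
      refine ⟨hok.1, hok.2.1, hok.2.2.1, ?_, ?_, ?_, ?_⟩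
      · rw [k4 _ (hχ x)]; exact hok.2.2.2.1
      · rw [k4 _ (hχ y)]; exact hok.2.2.2.2.1
      · simp only; rw [k1]; exact hok.2.2.2.2.2.1
      · simp only; rw [k2]; exact hok.2.2.2.2.2.2
    have hc : ((x :: P', y :: Q') : Ev) ∈ cands A s χ (Li A s B χ i) :=
      mem_cands.2 ⟨(P', Q'), hm, x, hx, y, hy, hok', rfl⟩
    obtain ⟨e', he', hk'⟩ := exists_dd (B := B) (χ := χ) hc
    exact ⟨e', he', hk'.trans (key_cons x y hk)⟩

/-! ### The search -/

/-- The adjacency relation. -/
def adjP (A : List (List Bool)) (x y : ℕ) : Prop := adjA A x y = true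

theorem closing_iff {A : List (List Bool)} {T : ℕ} {e : Ev} : closing A T e = true ↔
    (e.1.length = T ∨ ∀ x ∈ e.1.getLast?, ∀ y ∈ e.2.head?, adjP A x y) := by
  unfold closing adjP
  rw [Bool.or_eq_true, decide_eq_true_eq, List.head?_reverse]
  cases e.1.getLast? <;> cases e.2.head? <;> simp

theorem find_sound {A : List (List Bool)} {T B : ℕ} {F : List (List ℕ)} {s : St} {e : Ev}
    (h : find A T B F s = some e) : IsBad (adjP A) T s e := by
  unfold find at h
  have hm := List.mem_of_mem_head? h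
  rw [List.mem_flatMap] at hm
  obtain ⟨χ, _, hm⟩ := hm
  rw [List.mem_filter, stp_iterate, mem_Ai] at hm
  obtain ⟨⟨i, hi, he⟩, hc⟩ := hm
  have hv := Li_sound _ e he
  refine ⟨by rw [hv.len1, hv.len2], ?_, by rw [hv.len1]; omega, List.Nodup.of_map _ hv.nodup,
    hv.ch1, hv.ch2, hv.col, fun x hx => ?_, closing_iff.1 hc⟩
  · intro h0
    have := hv.len1
    rw [h0] at this
    simp at this
  · exact Option.ne_none_iff_isSome.1 (hv.isSome x hx)

/-- Perfect families of hash functions. -/
def Perfect (n T B : ℕ) (F : List (List ℕ)) : Prop :=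
  (∀ χ ∈ F, ∀ x, hv χ x < B) ∧ ∀ U : List ℕ, U.Nodup → U.length ≤ 2 * T → (∀ x ∈ U, x < n) →
    ∃ χ ∈ F, (U.map (fun x => hv χ x)).Nodup

theorem find_complete {A : List (List Bool)} {T B : ℕ} {F : List (List ℕ)} {s : St}
    (hs : s.length = A.length) (hF : Perfect A.length T B F)
    (h : find A T B F s = none) (e : Ev) : ¬ IsBad (adjP A) T s e := by
  intro he
  have hlt : ∀ x, x ∈ e.1 ∨ x ∈ e.2 → x < A.length := fun x hx => by
    rw [← hs]; exact lt_of_isSome (he.isSome' x hx)
  have hl := he.len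
  have hle := he.le
  obtain ⟨χ, hχ, hU⟩ := hF.2 (e.1 ++ e.2) he.nodup (by rw [List.length_append]; omega)
    (fun x hx => hlt x (List.mem_append.1 hx))
  have hpos : 1 ≤ e.1.length := List.length_pos_iff.2 he.pos
  obtain ⟨i, hi⟩ : ∃ i, e.1.length = i + 1 := ⟨e.1.length - 1, by omega⟩
  have hval : Val A s χ (i + 1) e := ⟨hi, by omega, he.ch1, he.ch2, he.col,
    fun x hx => Option.ne_none_iff_isSome.2 (he.isSome x hx), hU, fun x hx => hlt x (Or.inl hx),
    fun x hx => hlt x (Or.inr hx)⟩
  obtain ⟨e', he', hk⟩ := Li_complete (hF.1 χ hχ) (i + 1) e hval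
  have hv' := Li_sound _ e' he'
  have hc : closing A T e' = true := by
    rw [closing_iff, hv'.len1, ← hi]
    unfold key at hk
    simp only [Prod.mk.injEq, List.head?_reverse] at hk
    rw [hk.2.1, hk.2.2.1]
    exact he.close
  unfold find at h
  rw [List.head?_eq_none_iff] at h
  have hm : e' ∈ F.flatMap (fun χ => ((stp A s B χ)^[T] ([([], [])], [])).2.filter (closing A T)) := by
    rw [List.mem_flatMap]
    refine ⟨χ, hχ, ?_⟩
    rw [List.mem_filter, stp_iterate, mem_Ai]
    exact ⟨⟨i, by omega, he'⟩, hc⟩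
  rw [h] at hm
  simp at hm

/-! ### Bounds for the sizes of the lists -/

open Finset in
/-- The possible keys. -/
def keys (n B : ℕ) : Finset (Option ℕ × Option ℕ × Option ℕ × List ℕ) :=
  (insert none ((range n).image some)) ×ˢ (insert none ((range n).image some)) ×ˢ
    (insert none ((range n).image some)) ×ˢ
      ((range B).powerset.image (fun S => (List.range B).filter (fun i => decide (i ∈ S))))

open Finset in
theorem card_keys (n B : ℕ) : (keys n B).card ≤ (n + 1) ^ 3 * 2 ^ B := by
  unfold keys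
  rw [card_product, card_product, card_product]
  have h1 : (insert none ((range n).image some) : Finset (Option ℕ)).card ≤ n + 1 := by
    refine (card_insert_le _ _).trans ?_
    exact Nat.add_le_add_right (card_image_le.trans (by simp)) 1
  have h2 : ((range B).powerset.image
      (fun S => (List.range B).filter (fun i => decide (i ∈ S)))).card ≤ 2 ^ B :=
    card_image_le.trans (by simp)
  calc _ ≤ (n + 1) * ((n + 1) * ((n + 1) * 2 ^ B)) := by gcongr
    _ = _ := by ring

open Finset in
theorem key_mem {A : List (List Bool)} {s : St} {χ : List ℕ} {B i : ℕ} {e : Ev}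
    (h : Val A s χ i e) : key B χ e ∈ keys A.length B := by
  unfold keys key
  simp only [mem_product]
  have h1 : ∀ (l : List ℕ), (∀ x ∈ l, x < A.length) →
      l.head? ∈ (insert none ((range A.length).image some) : Finset (Option ℕ)) := by
    intro l hl
    cases l with
    | nil => simp
    | cons a l => simp [hl a (by simp)]
  refine ⟨h1 _ h.lt1, h1 _ h.lt2, h1 _ (fun x hx => h.lt1 x (by simpa using hx)), ?_⟩
  rw [mem_image]
  refine ⟨(range B).filter (fun i => i ∈ (e.1 ++ e.2).map (fun x => hv χ x)), by simp, ?_⟩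
  unfold canon
  apply List.filter_congr
  intro i hi
  rw [List.mem_range] at hi
  simp [hi]

theorem length_Li {A : List (List Bool)} {s : St} {χ : List ℕ} {B : ℕ} (i : ℕ) :
    (Li A s B χ i).length ≤ (A.length + 1) ^ 3 * 2 ^ B := by
  cases i with
  | zero =>
    simp only [Li, List.length_singleton]
    exact Nat.succ_le_of_lt (by positivity)
  | succ i =>
    have h1 : ((Li A s B χ (i + 1)).map (key B χ)).toFinset ⊆ keys A.length B := by
      intro k hk
      rw [List.mem_toFinset, List.mem_map] at hk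
      obtain ⟨e, he, rfl⟩ := hk
      exact key_mem (Li_sound _ e he)
    have h2 := Finset.card_le_card h1
    rw [List.toFinset_card_of_nodup (by rw [Li]; exact nodup_dd _ _ _), List.length_map] at h2
    exact h2.trans (card_keys _ _)

theorem length_Ai {A : List (List Bool)} {s : St} {χ : List ℕ} {B : ℕ} (i : ℕ) :
    (Ai A s B χ i).length ≤ i * ((A.length + 1) ^ 3 * 2 ^ B) := by
  induction i with
  | zero => simp [Ai]
  | succ i ih =>
    rw [Ai, List.length_append]
    have := length_Li (A := A) (s := s) (χ := χ) (B := B) (i + 1)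
    rw [Nat.succ_mul]
    omega

end Pool.Agent.X240.NR
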