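import Mathlib

/-!
# Lists of given length with entries in a finite set
-/

namespace Pool.Agent.X240.NR

open Finset

variable {α : Type} [DecidableEq α]

/-- The lists of length `m` with entries in `S`. -/
def LS (S : Finset α) : ℕ → Finset (List α)
  | 0 => {[]}
  | m + 1 => (S ×ˢ LS S m).image (fun p => p.1 :: p.2)

theorem mem_LS {S : Finset α} : ∀ {m : ℕ} {l : List α}, l ∈ LS S m ↔ l.length = m ∧ ∀ x ∈ l, x ∈ S
  | 0, l => by
    simp only [LS, mem_singleton, List.length_eq_zero_iff]
    constructor
    · rintro rfl; simp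
    · exact fun h => h.1
  | m + 1, [] => by simp [LS]
  | m + 1, a :: l => by
    simp only [LS, mem_image, mem_product, Prod.exists, List.cons.injEq, List.length_cons,
      Nat.add_right_cancel_iff, List.mem_cons, forall_eq_or_imp]
    constructor
    · rintro ⟨b, l', ⟨hb, hl⟩, rfl, rfl⟩
      rw [mem_LS] at hl
      exact ⟨hl.1, hb, hl.2⟩
    · rintro ⟨h1, h2, h3⟩
      exact ⟨a, l, ⟨h2, mem_LS.2 ⟨h1, h3⟩⟩, rfl, rfl⟩

theorem card_LS (S : Finset α) : ∀ m : ℕ, (LS S m).card = S.card ^ m
  | 0 => by simp [LS]
  | m + 1 => by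
    rw [LS, card_image_of_injective, card_product, card_LS S m, pow_succ, mul_comm]
    rintro ⟨a, l⟩ ⟨b, l'⟩ h
    simpa using h

/-- Splitting lists of length `a + b`. -/
theorem card_split (S : Finset α) (a b : ℕ) (p : List α → List α → Prop)
    [∀ x y, Decidable (p x y)] :
    ((LS S (a + b)).filter (fun l => p (l.take a) (l.drop a))).card =
      ∑ x ∈ LS S a, ((LS S b).filter (fun y => p x y)).card := by
  rw [← card_sigma]
  refine card_bij' (fun l _ => (⟨l.take a, l.drop a⟩ : (_ : List α) × List α))
    (fun q _ => q.1 ++ q.2) ?_ ?_ ?_ ?_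
  · intro l hl
    rw [mem_filter, mem_LS] at hl
    rw [mem_sigma, mem_filter, mem_LS, mem_LS]
    refine ⟨⟨?_, fun x hx => hl.1.2 x (List.mem_of_mem_take hx)⟩,
      ⟨?_, fun x hx => hl.1.2 x (List.mem_of_mem_drop hx)⟩, hl.2⟩
    · simp [hl.1.1]
    · simp [hl.1.1]
  · rintro ⟨x, y⟩ hq
    rw [mem_sigma, mem_filter, mem_LS, mem_LS] at hq
    simp only at hq
    rw [mem_filter, mem_LS]
    refine ⟨⟨?_, ?_⟩, ?_⟩
    · simp [hq.1.1, hq.2.1.1]
    · intro z hz
      rcases List.mem_append.1 hz with h | h
      · exact hq.1.2 z h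
      · exact hq.2.1.2 z h
    · simp only
      rw [List.take_left' hq.1.1, List.drop_left' hq.1.1]
      exact hq.2.2
  · intro l _
    simp
  · rintro ⟨x, y⟩ hq
    rw [mem_sigma, mem_filter, mem_LS, mem_LS] at hq
    simp only at hq
    simp only [List.take_left' hq.1.1, List.drop_left' hq.1.1]

/-- Cutting a list into `m` blocks of length `a`. -/
def chunk (a : ℕ) : ℕ → List α → List (List α)
  | 0, _ => []
  | m + 1, l => l.take a :: chunk a m (l.drop a)

omit [DecidableEq α] in
theorem chunk_eq_map (a : ℕ) : ∀ (m : ℕ) (l : List α),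
    chunk a m l = (List.range m).map (fun i => (l.drop (i * a)).take a)
  | 0, l => by simp [chunk]
  | m + 1, l => by
    rw [chunk, chunk_eq_map a m, List.range_succ_eq_map, List.map_cons, List.map_map]
    simp only [zero_mul, List.drop_zero, List.cons.injEq, true_and]
    apply List.map_congr_left
    intro i _
    simp only [List.drop_drop, Function.comp_apply]
    congr 2
    rw [Nat.succ_mul, add_comm]

omit [DecidableEq α] in
theorem length_chunk (a m : ℕ) (l : List α) : (chunk a m l).length = m := by
  rw [chunk_eq_map]; simp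

theorem chunk_mem (S : Finset α) (a : ℕ) : ∀ (m : ℕ) (l : List α), l ∈ LS S (m * a) →
    chunk a m l ∈ LS (LS S a) m
  | 0, l, _ => by simp [chunk, mem_LS]
  | m + 1, l, hl => by
    rw [mem_LS] at hl
    have h1 : l.length = m * a + a := by rw [hl.1]; ring
    rw [chunk]
    have h2 := chunk_mem S a m (l.drop a) (mem_LS.2 ⟨by simp [h1],
      fun x hx => hl.2 x (List.mem_of_mem_drop hx)⟩)
    rw [mem_LS] at h2 ⊢
    refine ⟨by simp [h2.1], ?_⟩
    intro x hx
    rcases List.mem_cons.1 hx with rfl | hx
    · rw [mem_LS]
      exact ⟨by simp [h1], fun x hx => hl.2 x (List.mem_of_mem_take hx)⟩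
    · exact h2.2 x hx

/-- Cutting into blocks is a bijection. -/
theorem card_chunk (S : Finset α) (a : ℕ) : ∀ (m : ℕ) (p : List (List α) → Prop)
    [DecidablePred p], ((LS S (m * a)).filter (fun l => p (chunk a m l))).card =
      ((LS (LS S a) m).filter p).card := by
  intro m p _
  refine card_bij' (fun l _ => chunk a m l) (fun q _ => q.flatten) ?_ ?_ ?_ ?_
  · intro l hl
    rw [mem_filter] at hl ⊢
    exact ⟨chunk_mem S a m l hl.1, hl.2⟩
  · intro q hq
    rw [mem_filter] at hq
    have h1 : ∀ (m : ℕ) (q : List (List α)), q ∈ LS (LS S a) m → chunk a m q.flatten = q ∧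
        q.flatten ∈ LS S (m * a) := by
      intro m
      induction m with
      | zero => intro q hq; simp [LS] at hq; subst hq; simp [chunk, LS]
      | succ m ih =>
        intro q hq
        cases q with
        | nil => simp [LS] at hq
        | cons x q =>
          rw [mem_LS] at hq
          have hx := hq.2 x (by simp)
          rw [mem_LS] at hx
          have h2 := ih q (mem_LS.2 ⟨by simpa using hq.1, fun y hy => hq.2 y (by simp [hy])⟩)
          rw [List.flatten_cons, chunk, List.take_left' hx.1, List.drop_left' hx.1, h2.1]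
          refine ⟨rfl, ?_⟩
          rw [mem_LS] at h2 ⊢
          refine ⟨?_, ?_⟩
          · rw [List.length_append, hx.1, h2.2.1]; ring
          · intro z hz
            rcases List.mem_append.1 hz with h | h
            · exact hx.2 z h
            · exact h2.2.2 z h
    rw [mem_filter]
    obtain ⟨h2, h3⟩ := h1 m q hq.1
    exact ⟨h3, by rw [h2]; exact hq.2⟩
  · intro l hl
    rw [mem_filter, mem_LS] at hl
    have h1 : ∀ (m : ℕ) (l : List α), l.length = m * a → (chunk a m l).flatten = l := by
      intro m
      induction m with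
      | zero => intro l hl; simp at hl; subst hl; simp [chunk]
      | succ m ih =>
        intro l hl
        have h1 : l.length = m * a + a := by rw [hl]; ring
        rw [chunk, List.flatten_cons, ih _ (by simp [h1]), List.take_append_drop]
    exact h1 m l hl.1.1
  · intro q hq
    rw [mem_filter] at hq
    have h1 : ∀ (m : ℕ) (q : List (List α)), q ∈ LS (LS S a) m → chunk a m q.flatten = q := by
      intro m
      induction m with
      | zero => intro q hq; simp [LS] at hq; subst hq; simp [chunk]
      | succ m ih =>
        intro q hq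
        cases q with
        | nil => simp [LS] at hq
        | cons x q =>
          rw [mem_LS] at hq
          have hx := hq.2 x (by simp)
          rw [mem_LS] at hx
          have h2 := ih q (mem_LS.2 ⟨by simpa using hq.1, fun y hy => hq.2 y (by simp [hy])⟩)
          rw [List.flatten_cons, chunk, List.take_left' hx.1, List.drop_left' hx.1, h2]
    exact h1 m q hq.1

end Pool.Agent.X240.NR
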