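import Pool.Agent.X240.NR.PolyA
import Pool.Agent.X240.NR.Defs
import Pool.Agent.NPC.Dec
import Pool.Agent.H671R2.ZDefs

/-!
# The main theorem
-/

namespace Pool.Agent.X240.NR

open Finset Pool.Agent.NPC Pool.Agent.NPC.R671

/-! ### The adjacency matrix -/

theorem length_adjMatrix {n : ℕ} (G : SimpleGraph (Fin n)) : (adjMatrix G).length = n := by
  unfold adjMatrix; simp

theorem adjP_iff {n : ℕ} (G : SimpleGraph (Fin n)) (x y : ℕ) :
    adjP (adjMatrix G) x y ↔ ∃ (hx : x < n) (hy : y < n), G.Adj ⟨x, hx⟩ ⟨y, hy⟩ := by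
  unfold adjP adjA adjMatrix
  by_cases hx : x < n
  · by_cases hy : y < n
    · simp [List.getD_eq_getElem?_getD, hx, hy]
    · simp [List.getD_eq_getElem?_getD, hx, hy]
  · simp [List.getD_eq_getElem?_getD, hx]

theorem adjP_symm {n : ℕ} (G : SimpleGraph (Fin n)) (x y : ℕ) (h : adjP (adjMatrix G) x y) :
    adjP (adjMatrix G) y x := by
  rw [adjP_iff] at h ⊢
  obtain ⟨hx, hy, h⟩ := h
  exact ⟨hy, hx, h.symm⟩

open Classical in
theorem row_count {n : ℕ} (G : SimpleGraph (Fin n)) (i : Fin n) :
    ((List.ofFn fun j => decide (G.Adj i j)).filter id).length = G.degree i := by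
  have h1 : (List.ofFn fun j => decide (G.Adj i j)) =
      (List.finRange n).map (fun j => decide (G.Adj i j)) := by
    rw [← List.ofFn_id, List.map_ofFn]
    rfl
  rw [h1, List.filter_map, List.length_map]
  rw [← List.toFinset_card_of_nodup ((List.nodup_finRange n).filter _),
    ← SimpleGraph.card_neighborFinset_eq_degree]
  congr 1
  ext j
  simp

theorem degA_spec (A : List (List Bool)) (h : ∀ r ∈ A, (r.filter id).length ≤ A.length) :
    (∀ r ∈ A, (r.filter id).length ≤ degA A) ∧
      ∀ d, (∀ r ∈ A, (r.filter id).length ≤ d) → degA A ≤ d := by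
  unfold degA
  rw [List.head?_filter]
  cases hf : (List.range (A.length + 1)).find?
    (fun d => A.all (fun r => decide ((r.filter id).length ≤ d))) with
  | none =>
    exfalso
    rw [List.find?_eq_none] at hf
    apply hf A.length (by simp)
    simpa using h
  | some d =>
    rw [List.find?_range_eq_some] at hf
    obtain ⟨h1, h2, h3⟩ := hf
    simp only [Option.getD_some]
    refine ⟨by simpa using h1, fun d' hd' => ?_⟩
    by_contra hlt
    have h4 := h3 d' (by omega)
    rw [Bool.not_eq_true'] at h4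
    have h5 : A.all (fun r => decide ((r.filter id).length ≤ d')) = true := by simpa using hd'
    rw [h5] at h4
    simp at h4

open Classical in
theorem mem_adjMatrix {n : ℕ} {G : SimpleGraph (Fin n)} {r : List Bool} :
    r ∈ adjMatrix G ↔ ∃ i, (List.ofFn fun j => decide (G.Adj i j)) = r := by
  unfold adjMatrix
  rw [List.mem_ofFn]

open Classical in
theorem rows_le {n : ℕ} (G : SimpleGraph (Fin n)) :
    ∀ r ∈ adjMatrix G, (r.filter id).length ≤ (adjMatrix G).length := by
  intro r hr
  obtain ⟨i, rfl⟩ := mem_adjMatrix.1 hr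
  rw [length_adjMatrix]
  refine (List.length_filter_le _ _).trans ?_
  simp

open Classical in
theorem degree_le {n : ℕ} (G : SimpleGraph (Fin n)) (i : Fin n) :
    G.degree i ≤ degA (adjMatrix G) := by
  rw [← row_count]
  exact (degA_spec _ (rows_le G)).1 _ (mem_adjMatrix.2 ⟨i, rfl⟩)

open Classical in
theorem degA_le_maxDegree {n : ℕ} (G : SimpleGraph (Fin n)) :
    degA (adjMatrix G) ≤ G.maxDegree := by
  apply (degA_spec _ (rows_le G)).2
  intro r hr
  obtain ⟨i, rfl⟩ := mem_adjMatrix.1 hr
  rw [row_count]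
  exact G.degree_le_maxDegree i

open Classical in
theorem card_nb {n : ℕ} (G : SimpleGraph (Fin n)) (x : ℕ) :
    (nb n (adjP (adjMatrix G)) x).card ≤ degA (adjMatrix G) := by
  by_cases hx : x < n
  · refine le_trans ?_ (degree_le G ⟨x, hx⟩)
    rw [← SimpleGraph.card_neighborFinset_eq_degree]
    have h1 : nb n (adjP (adjMatrix G)) x ⊆ (G.neighborFinset ⟨x, hx⟩).image Fin.val := by
      intro y hy
      unfold nb at hy
      rw [mem_filter, adjP_iff] at hy
      obtain ⟨_, hx', hy', h⟩ := hy
      rw [mem_image]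
      exact ⟨⟨y, hy'⟩, by simpa using h, rfl⟩
    exact (card_le_card h1).trans card_image_le
  · have h1 : nb n (adjP (adjMatrix G)) x = ∅ := by
      unfold nb
      rw [filter_eq_empty_iff]
      intro y _
      rw [adjP_iff]
      rintro ⟨h, _⟩
      exact hx h
    rw [h1]
    simp

/-! ### Complete colourings without bad events are nonrepetitive -/

theorem nonrep_of {n T : ℕ} {G : SimpleGraph (Fin n)} {s : St} (hT : 1 ≤ T) (hs : s.length = n)
    (hc : Sys.Complete s) (hb : ∀ e, ¬ IsBad (adjP (adjMatrix G)) T s e) :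
    Nonrepetitive G (fun v : Fin n => look s v) := by
  intro P Q hP hl hnd hch hcol
  have key : ∀ l : List (Fin n), l.IsChain G.Adj → (l.map Fin.val).IsChain (adjP (adjMatrix G)) := by
    intro l hl
    rw [List.isChain_map]
    refine hl.imp fun x y h => ?_
    rw [adjP_iff]
    exact ⟨x.2, y.2, h⟩
  have hchain := key _ hch
  rw [List.map_append] at hchain
  have hnd' : ((P.map Fin.val) ++ (Q.map Fin.val)).Nodup := by
    rw [← List.map_append]
    exact hnd.map Fin.val_injective
  have hcol' : (P.map Fin.val).map (look s) = (Q.map Fin.val).map (look s) := by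
    rw [List.map_map, List.map_map]
    exact hcol
  have hsome : ∀ x ∈ P.map Fin.val, (look s x).isSome = true := by
    intro x hx
    obtain ⟨v, _, rfl⟩ := List.mem_map.1 hx
    apply isSome_of_lt_nxt
    unfold Sys.Complete at hc
    rw [hc, hs]
    exact v.2
  rw [List.isChain_append] at hchain
  by_cases hle : P.length ≤ T
  · exact hb (P.map Fin.val, Q.map Fin.val) ⟨by simpa using hl, by simpa using hP,
      by simpa using hle, hnd', hchain.1, hchain.2.1, hcol', hsome, Or.inr hchain.2.2⟩
  · push Not at hle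
    refine hb ((P.map Fin.val).take T, (Q.map Fin.val).take T) ⟨by simp [hl], ?_, by simp,
      ?_, hchain.1.take T, hchain.2.1.take T, ?_, ?_, Or.inl ?_⟩
    · intro h
      have := congrArg List.length h
      rw [List.length_take, List.length_map, List.length_nil] at this
      omega
    · simp only
      rw [List.nodup_append] at hnd' ⊢
      exact ⟨hnd'.1.sublist (List.take_sublist _ _), hnd'.2.1.sublist (List.take_sublist _ _),
        fun a ha b hb => hnd'.2.2 a (List.mem_of_mem_take ha) b (List.mem_of_mem_take hb)⟩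
    · simp only
      rw [List.map_take, List.map_take, hcol']
    · intro x hx
      exact hsome x (List.mem_of_mem_take hx)
    · simp only [List.length_take, List.length_map]
      omega

/-- The colour of a vertex as a number. -/
def colN (s : St) (v : ℕ) : ℕ := valB ((look s v).getD [])

theorem nonrep_colN {n T κ : ℕ} {G : SimpleGraph (Fin n)} {s : St} (hT : 1 ≤ T)
    (hs : s ∈ LS (insert none ((LS Bit2 κ).image some)) n)
    (hc : Sys.Complete s) (hb : ∀ e, ¬ IsBad (adjP (adjMatrix G)) T s e) :
    Nonrepetitive G (fun v : Fin n => colN s v) ∧ ∀ v : Fin n, colN s v < 2 ^ κ := by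
  rw [mem_LS] at hs
  have h1 : ∀ v : Fin n, ∃ l ∈ LS Bit2 κ, look s v = some l := by
    intro v
    have h2 : (look s v).isSome = true := by
      apply isSome_of_lt_nxt
      unfold Sys.Complete at hc
      rw [hc, hs.1]
      exact v.2
    have h3 : look s v ∈ s := by
      unfold look
      rw [List.getD_eq_getElem?_getD, List.getElem?_eq_getElem (by rw [hs.1]; exact v.2)]
      exact List.getElem_mem _
    have h4 := hs.2 _ h3
    rw [mem_insert] at h4
    rcases h4 with h | h
    · rw [h] at h2; simp at h2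
    · rw [mem_image] at h
      obtain ⟨l, hl, h⟩ := h
      exact ⟨l, hl, h.symm⟩
  constructor
  · intro P Q hP hl hnd hch hcol
    apply nonrep_of hT hs.1 hc hb P Q hP hl hnd hch
    have h5 : ∀ P Q : List (Fin n), P.map (fun v : Fin n => colN s v) = Q.map (fun v : Fin n => colN s v) →
        P.map (fun v : Fin n => look s v) = Q.map (fun v : Fin n => look s v) := by
      intro P
      induction P with
      | nil => intro Q h; cases Q <;> simp at h ⊢
      | cons a P ih =>
        intro Q h
        cases Q with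
        | nil => simp at h
        | cons b Q =>
          simp only [List.map_cons, List.cons.injEq] at h ⊢
          refine ⟨?_, ih Q h.2⟩
          obtain ⟨l, hl, ha⟩ := h1 a
          obtain ⟨l', hl', hb⟩ := h1 b
          have h6 := h.1
          unfold colN at h6
          rw [ha, hb] at h6 ⊢
          simp only [Option.getD_some] at h6
          rw [valB_inj (by rw [(mem_LS.1 hl).1, (mem_LS.1 hl').1]) h6]
    exact h5 P Q hcol
  · intro v
    obtain ⟨l, hl, hv⟩ := h1 v
    unfold colN
    rw [hv]
    exact mem_range.1 (valB_mem hl)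

/-- The algorithm succeeds on the string `r`. -/
def Succ {n : ℕ} (G : SimpleGraph (Fin n)) (r : List Bool) : Prop :=
  Perfect n (TT n) (BB n) (famOf (jj n) n (RR n) (r.take (M1 n))) ∧
  Sys.Complete (runA (adjMatrix G) (famOf (jj n) n (RR n) (r.take (M1 n)))
    (chunk (kap (degA (adjMatrix G))) (NN n (degA (adjMatrix G)))
      ((r.drop (M1 n)).take (M2 n (degA (adjMatrix G))))))

theorem two_pow_kap {D : ℕ} (hD : 1 ≤ D) : 2 ^ kap D ≤ 64 * D ^ 2 := by
  unfold kap
  have h1 : 0 < Nat.size (32 * D ^ 2) := Nat.size_pos.2 (by positivity)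
  have h2 : 2 ^ (Nat.size (32 * D ^ 2) - 1) ≤ 32 * D ^ 2 := by
    by_contra h
    have := Nat.size_le.2 (not_le.1 h)
    omega
  have h3 : 2 ^ Nat.size (32 * D ^ 2) = 2 * 2 ^ (Nat.size (32 * D ^ 2) - 1) := by
    rw [← pow_succ']
    congr 1
    omega
  omega

theorem alg_of_succ {n : ℕ} {G : SimpleGraph (Fin n)} (hD : degA (adjMatrix G) ≠ 0) {r : List Bool}
    (hr : M1 n + M2 n (degA (adjMatrix G)) ≤ r.length) (h : Succ G r) :
    ∃ c : Fin n → ℕ, alg (adjMatrix G, r) = List.ofFn c ∧
      (∀ v, c v < 64 * degA (adjMatrix G) ^ 2) ∧ Nonrepetitive G c := by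
  classical
  obtain ⟨hP, hC⟩ := h
  set A := adjMatrix G with hA
  set D := degA A with hDdef
  set F := famOf (jj n) n (RR n) (r.take (M1 n)) with hF
  set cs := chunk (kap D) (NN n D) ((r.drop (M1 n)).take (M2 n D)) with hcs
  have hn : A.length = n := length_adjMatrix G
  have hn0 : 0 < n := by
    by_contra h0
    apply hD
    have := degA_le A
    omega
  have hY : (YY A F).Ok := ⟨adjP_symm G, fun s _ e h => find_sound h,
    fun s hs h e => find_complete hs (by rw [hn]; exact hP) h e⟩
  have hb := Sys.noBad hY cs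
  rw [← runA_eq] at hb
  have hcs2 : ∀ c ∈ cs, c ∈ LS Bit2 (kap D) := by
    have h1 : (r.drop (M1 n)).take (M2 n D) ∈ LS Bit2 (NN n D * kap D) := by
      rw [mem_LS]
      refine ⟨?_, fun x _ => by cases x <;> simp [Bit2]⟩
      rw [List.length_take, List.length_drop]
      unfold M2 at hr ⊢
      omega
    exact (mem_LS.1 (chunk_mem Bit2 (kap D) (NN n D) _ h1)).2
  have hm := Sys.run_mem (Y := YY A F) cs hcs2
  rw [← runA_eq] at hm
  have hYn : (YY A F).n = n := hn
  rw [hYn] at hm
  have hT : 1 ≤ TT n := Nat.size_pos.2 hn0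
  have hb' : ∀ e, ¬ IsBad (adjP (adjMatrix G)) (TT n) (runA A F cs) e := by
    intro e he
    apply hb e
    change IsBad (adjP A) (TT A.length) _ e
    rw [hn]
    exact he
  obtain ⟨h1, h2⟩ := nonrep_colN hT hm hC hb'
  refine ⟨fun v => colN (runA A F cs) v, ?_, fun v => lt_of_lt_of_le (h2 v)
    (two_pow_kap (Nat.one_le_iff_ne_zero.2 hD)), h1⟩
  unfold alg
  simp only
  rw [if_neg hD, hn, ← hDdef, ← hF, ← hcs]
  apply List.ext_getElem
  · rw [List.length_map, List.length_ofFn]
    exact (mem_LS.1 hm).1
  · intro i hi hi'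
    rw [List.getElem_map, List.getElem_ofFn]
    unfold colN look
    rw [List.getD_eq_getElem?_getD, List.getElem?_eq_getElem (by simpa using hi)]
    rfl

/-! ### The probability of success -/

theorem card_Bit2 (m : ℕ) : (LS Bit2 m).card = 2 ^ m := by
  rw [card_LS]
  rfl

open Classical in
theorem sum_filter_const (X : Finset (List Bool)) (k : ℕ) (p : List Bool → Prop) :
    ∑ x ∈ X, ((LS Bit2 k).filter (fun _ => p x)).card = (X.filter p).card * 2 ^ k := by
  rw [card_filter, sum_mul]
  apply sum_congr rfl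
  intro x _
  by_cases h : p x
  · rw [filter_true_of_mem (fun _ _ => h), card_Bit2, if_pos h, one_mul]
  · rw [filter_false_of_mem (fun _ _ => h), card_empty, if_neg h, zero_mul]

open Classical in
theorem card_not_succ {n : ℕ} {G : SimpleGraph (Fin n)} (hD : degA (adjMatrix G) ≠ 0) {m : ℕ}
    (hm : M1 n + M2 n (degA (adjMatrix G)) ≤ m) :
    (n : ℝ) * ((LS Bit2 m).filter (fun r => ¬ Succ G r)).card ≤ 2 ^ m := by
  set A := adjMatrix G with hA
  set D := degA A with hDdef
  obtain ⟨t, rfl⟩ : ∃ t, m = M1 n + (M2 n D + t) := ⟨m - (M1 n + M2 n D), by omega⟩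
  have hn : A.length = n := length_adjMatrix G
  have hn0 : 0 < n := by
    by_contra h0
    apply hD
    have := degA_le A
    omega
  have hD1 : 1 ≤ D := Nat.one_le_iff_ne_zero.2 hD
  -- the two parts
  have h1 : ((LS Bit2 (M1 n + (M2 n D + t))).filter (fun r => ¬ Succ G r)).card ≤
      ((LS Bit2 (M1 n + (M2 n D + t))).filter (fun r =>
        ¬ Perfect n (TT n) (BB n) (famOf (jj n) n (RR n) (r.take (M1 n))))).card +
      ((LS Bit2 (M1 n + (M2 n D + t))).filter (fun r =>
        Perfect n (TT n) (BB n) (famOf (jj n) n (RR n) (r.take (M1 n))) ∧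
        ¬ Sys.Complete (runA A (famOf (jj n) n (RR n) (r.take (M1 n))) (chunk (kap D) (NN n D)
          ((r.drop (M1 n)).take (M2 n D)))))).card := by
    rw [← card_union_add_card_inter]
    refine le_trans (card_le_card ?_) (Nat.le_add_right _ _)
    intro r hr
    rw [mem_filter] at hr
    rw [mem_union, mem_filter, mem_filter]
    by_cases hp : Perfect n (TT n) (BB n) (famOf (jj n) n (RR n) (r.take (M1 n)))
    · exact Or.inr ⟨hr.1, hp, fun hc => hr.2 ⟨hp, hc⟩⟩
    · exact Or.inl ⟨hr.1, hp⟩
  have c1 := card_split Bit2 (M1 n) (M2 n D + t) (fun x _ =>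
    ¬ Perfect n (TT n) (BB n) (famOf (jj n) n (RR n) x))
  have c2 := card_split Bit2 (M1 n) (M2 n D + t) (fun x y =>
    Perfect n (TT n) (BB n) (famOf (jj n) n (RR n) x) ∧
        ¬ Sys.Complete (runA A (famOf (jj n) n (RR n) x) (chunk (kap D) (NN n D)
          (y.take (M2 n D)))))
  rw [c1, c2] at h1
  have h2 : ∑ x ∈ LS Bit2 (M1 n), ((LS Bit2 (M2 n D + t)).filter (fun _ =>
      ¬ Perfect n (TT n) (BB n) (famOf (jj n) n (RR n) x))).card =
      ((LS Bit2 (M1 n)).filter (fun x =>
        ¬ Perfect n (TT n) (BB n) (famOf (jj n) n (RR n) x))).card * 2 ^ (M2 n D + t) := by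
    convert sum_filter_const (LS Bit2 (M1 n)) (M2 n D + t) (fun x =>
      ¬ Perfect n (TT n) (BB n) (famOf (jj n) n (RR n) x))
  have h3 : ∀ x ∈ LS Bit2 (M1 n), (2 * n : ℝ) * ((LS Bit2 (M2 n D + t)).filter (fun y =>
        Perfect n (TT n) (BB n) (famOf (jj n) n (RR n) x) ∧
        ¬ Sys.Complete (runA A (famOf (jj n) n (RR n) x) (chunk (kap D) (NN n D)
          (y.take (M2 n D)))))).card ≤ 2 ^ (M2 n D + t) := by
    intro x _
    by_cases hp : Perfect n (TT n) (BB n) (famOf (jj n) n (RR n) x)
    · simp only [hp, true_and]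
      have h4 := card_split Bit2 (M2 n D) t (fun y _ => ¬ Sys.Complete (runA A
        (famOf (jj n) n (RR n) x) (chunk (kap D) (NN n D) y)))
      have h5 : ∑ y ∈ LS Bit2 (M2 n D), ((LS Bit2 t).filter (fun _ => ¬ Sys.Complete (runA A
          (famOf (jj n) n (RR n) x) (chunk (kap D) (NN n D) y)))).card =
          ((LS Bit2 (M2 n D)).filter (fun y => ¬ Sys.Complete (runA A
          (famOf (jj n) n (RR n) x) (chunk (kap D) (NN n D) y)))).card * 2 ^ t := by
        convert sum_filter_const (LS Bit2 (M2 n D)) t (fun y => ¬ Sys.Complete (runA A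
          (famOf (jj n) n (RR n) x) (chunk (kap D) (NN n D) y)))
      have h6 := prob_incomplete (A := A) (F := famOf (jj n) n (RR n) x) (D := D) hD1
        (adjP_symm G) (by rw [hn]; exact hp) (by rw [hn]; exact card_nb G)
      rw [hn] at h6
      rw [h4, h5]
      push_cast
      rw [pow_add, ← mul_assoc]
      apply mul_le_mul_of_nonneg_right _ (by positivity)
      unfold M2
      exact h6
    · simp only [hp, false_and, filter_false, card_empty, Nat.cast_zero, mul_zero]
      positivity
  have h4 := prob_notPerfect hn0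
  have h5 : (2 * n : ℝ) * ((LS Bit2 (M1 n + (M2 n D + t))).filter (fun r => ¬ Succ G r)).card ≤
      2 ^ (M1 n) * 2 ^ (M2 n D + t) + 2 ^ (M1 n) * 2 ^ (M2 n D + t) := by
    calc (2 * n : ℝ) * ((LS Bit2 (M1 n + (M2 n D + t))).filter (fun r => ¬ Succ G r)).card
        ≤ (2 * n : ℝ) * ((∑ x ∈ LS Bit2 (M1 n), ((LS Bit2 (M2 n D + t)).filter (fun _ =>
          ¬ Perfect n (TT n) (BB n) (famOf (jj n) n (RR n) x))).card : ℕ) +
          (∑ x ∈ LS Bit2 (M1 n), ((LS Bit2 (M2 n D + t)).filter (fun y =>
        Perfect n (TT n) (BB n) (famOf (jj n) n (RR n) x) ∧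
        ¬ Sys.Complete (runA A (famOf (jj n) n (RR n) x) (chunk (kap D) (NN n D)
          (y.take (M2 n D)))))).card : ℕ)) := by
          apply mul_le_mul_of_nonneg_left _ (by positivity)
          exact_mod_cast h1
      _ = (2 * n : ℝ) * ((LS Bit2 (M1 n)).filter (fun x =>
        ¬ Perfect n (TT n) (BB n) (famOf (jj n) n (RR n) x))).card * 2 ^ (M2 n D + t) +
          ∑ x ∈ LS Bit2 (M1 n), (2 * n : ℝ) * ((LS Bit2 (M2 n D + t)).filter (fun y =>
        Perfect n (TT n) (BB n) (famOf (jj n) n (RR n) x) ∧
        ¬ Sys.Complete (runA A (famOf (jj n) n (RR n) x) (chunk (kap D) (NN n D)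
          (y.take (M2 n D)))))).card := by
          rw [h2]
          push_cast
          rw [mul_add, mul_sum, ← mul_assoc]
      _ ≤ 2 ^ (M1 n) * 2 ^ (M2 n D + t) + ∑ _x ∈ LS Bit2 (M1 n), (2 : ℝ) ^ (M2 n D + t) := by
          apply add_le_add
          · apply mul_le_mul_of_nonneg_right _ (by positivity)
            unfold M1
            exact h4
          · exact sum_le_sum h3
      _ = _ := by
          rw [sum_const, card_Bit2, nsmul_eq_mul]
          push_cast
          ring
  rw [pow_add]
  nlinarith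

/-- the number of random bits -/
noncomputable def pp : Polynomial ℕ :=
  (Polynomial.C 4 * Polynomial.X ^ 2 * (Polynomial.C 2 * Polynomial.X ^ 2 +
    Polynomial.C 2 * Polynomial.X + Polynomial.C 2)) * (Polynomial.X *
      (Polynomial.C 4 * Polynomial.X)) +
  ((Polynomial.C 32 * Polynomial.X ^ 2 + Polynomial.C 1) * Polynomial.X + Polynomial.X +
    Polynomial.C 1) * (Polynomial.C 32 * Polynomial.X ^ 2)

theorem le_pp {n D : ℕ} (hD : D ≤ n) : M1 n + M2 n D ≤ pp.eval n := by
  have hs : ∀ k : ℕ, Nat.size k ≤ k := fun k => Nat.size_le.2 Nat.lt_two_pow_self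
  have h1 : TT n ≤ n := hs n
  have h2 : jj n ≤ 4 * n := (hs _).trans (by omega)
  have h3 : kap D ≤ 32 * n ^ 2 := (hs _).trans (Nat.mul_le_mul_left _ (Nat.pow_le_pow_left hD 2))
  unfold pp
  simp only [Polynomial.eval_add, Polynomial.eval_mul, Polynomial.eval_C, Polynomial.eval_pow,
    Polynomial.eval_X]
  apply Nat.add_le_add
  · unfold M1 RR ss
    gcongr
  · unfold M2 NN
    gcongr

/-- **Main theorem.** -/
theorem main : ∃ A : List Bool → List Bool, PolyTime A ∧ ∀ (n : ℕ) (G : SimpleGraph (Fin n)),
    open Classical in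
    (n - 1) * 2 ^ pp.eval n ≤ n * {r : List Bool | r.length = pp.eval n ∧
      ∃ c : Fin n → ℕ, A (bits (adjMatrix G, r)) = bits (List.ofFn c) ∧
        (∀ v, c v < max 1 (64 * G.maxDegree ^ 2)) ∧ Nonrepetitive G c}.ncard := by
  classical
  have hp : NPC.Poly (fun x : List Bool =>
      (unbits (List (List Bool) × List Bool) x).elim [] (fun p => alg p)) :=
    (NPC.Poly.optCases (g := fun _ => []) (h := fun _ p => alg p) poly_unbits
      (NPC.Poly.const []) (poly_alg.comp (NPC.Poly.snd NPC.Poly.id))).congr fun a => by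
        cases unbits (List (List Bool) × List Bool) a <;> rfl
  refine ⟨_, polyTime_bits hp, fun n G => ?_⟩
  rcases Nat.eq_zero_or_pos n with rfl | hn
  · simp
  set m := pp.eval n with hmdef
  set S := {r : List Bool | r.length = m ∧ ∃ c : Fin n → ℕ,
    bits ((unbits (List (List Bool) × List Bool) (bits (adjMatrix G, r))).elim []
      (fun p => alg p)) = bits (List.ofFn c) ∧
        (∀ v, c v < max 1 (64 * G.maxDegree ^ 2)) ∧ Nonrepetitive G c} with hS
  have hfin : S.Finite := by
    apply (LS Bit2 m).finite_toSet.subset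
    intro r hr
    rw [mem_coe, mem_LS]
    exact ⟨hr.1, fun x _ => by cases x <;> simp [Bit2]⟩
  have hLS : ∀ r : List Bool, r ∈ LS Bit2 m ↔ r.length = m := by
    intro r
    rw [mem_LS]
    exact ⟨fun h => h.1, fun h => ⟨h, fun x _ => by cases x <;> simp [Bit2]⟩⟩
  by_cases hD : degA (adjMatrix G) = 0
  · have h1 : ((LS Bit2 m : Finset (List Bool)) : Set (List Bool)) ⊆ S := by
      intro r hr
      rw [mem_coe, hLS] at hr
      refine ⟨hr, fun _ => 0, ?_, fun v => by simp, ?_⟩
      · rw [unbits_bits, Option.elim_some]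
        unfold alg
        simp only
        rw [if_pos hD, length_adjMatrix]
        congr 1
        apply List.ext_getElem
        · simp
        · intro i h1 h2
          simp
      · intro P Q hP hl hnd hch _
        obtain ⟨x, P, rfl⟩ := List.exists_cons_of_ne_nil hP
        have h2 : ∃ y, G.Adj x y := by
          cases P with
          | nil =>
            cases Q with
            | nil => simp at hl
            | cons y Q =>
              simp only [List.cons_append, List.nil_append, List.isChain_cons_cons] at hch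
              exact ⟨y, hch.1⟩
          | cons y P =>
            simp only [List.cons_append, List.isChain_cons_cons] at hch
            exact ⟨y, hch.1⟩
        obtain ⟨y, hy⟩ := h2
        have h3 := degree_le G x
        rw [hD, Nat.le_zero, SimpleGraph.degree_eq_zero] at h3
        exact h3 y hy
    have h2 := Set.ncard_le_ncard h1 hfin
    rw [Set.ncard_coe_finset, card_Bit2] at h2
    calc (n - 1) * 2 ^ m ≤ n * 2 ^ m := Nat.mul_le_mul_right _ (by omega)
      _ ≤ _ := Nat.mul_le_mul_left _ h2
  · have hle : M1 n + M2 n (degA (adjMatrix G)) ≤ m :=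
      le_pp (by have := degA_le (adjMatrix G); rwa [length_adjMatrix] at this)
    have h1 : (((LS Bit2 m).filter (fun r => Succ G r) : Finset (List Bool)) :
        Set (List Bool)) ⊆ S := by
      intro r hr
      rw [mem_coe, mem_filter, hLS] at hr
      obtain ⟨c, hc1, hc2, hc3⟩ := alg_of_succ hD (by rw [hr.1]; exact hle) hr.2
      refine ⟨hr.1, c, ?_, fun v => ?_, hc3⟩
      · rw [unbits_bits, Option.elim_some, hc1]
      · refine lt_of_lt_of_le (hc2 v) (le_max_of_le_right ?_)
        exact Nat.mul_le_mul_left _ (Nat.pow_le_pow_left (degA_le_maxDegree G) 2)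
    have h2 := Set.ncard_le_ncard h1 hfin
    rw [Set.ncard_coe_finset] at h2
    have h3 := card_not_succ hD hle
    have h4 := card_filter_add_card_filter_not (s := LS Bit2 m) (p := fun r => Succ G r)
    rw [card_Bit2] at h4
    have h5 : n * ((LS Bit2 m).filter (fun r => ¬ Succ G r)).card ≤ 2 ^ m := by exact_mod_cast h3
    have h6 : n * 2 ^ m = n * ((LS Bit2 m).filter (fun r => Succ G r)).card +
        n * ((LS Bit2 m).filter (fun r => ¬ Succ G r)).card := by rw [← h4, mul_add]
    have h7 : n * ((LS Bit2 m).filter (fun r => Succ G r)).card ≤ n * S.ncard :=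
      Nat.mul_le_mul_left _ h2
    have h8 : (n - 1) * 2 ^ m = n * 2 ^ m - 2 ^ m := by rw [Nat.sub_mul, one_mul]
    omega

end Pool.Agent.X240.NR
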