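import Pool.Agent.X240.NR.Alg

/-!
# The algorithm runs in polynomial time
-/

namespace Pool.Agent.X240.NR

open Pool.Agent.NPC

variable {α β : Type} [TEnc α] [TEnc β]

theorem setv_eq {Col : Type} (s : List (Option Col)) (v : ℕ) (c : Col) :
    setv s v c = s.zipIdx.map (fun q => bif decide (q.2 = v) then some c else q.1) := by
  unfold setv
  rw [List.mapIdx_eq_zipIdx_map]
  apply List.map_congr_left
  rintro ⟨o, i⟩ _
  by_cases h : i = v <;> simp [h]

theorem unset_eq {Col : Type} (s : List (Option Col)) (P : List ℕ) :
    unset s P = s.zipIdx.map (fun q => bif decide (q.2 ∈ P) then none else q.1) := by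
  unfold unset
  rw [List.mapIdx_eq_zipIdx_map]
  apply List.map_congr_left
  rintro ⟨o, i⟩ _
  by_cases h : i ∈ P <;> simp [h]

theorem nxt_eq (s : St) :
    nxt s = (((List.range (s.length + 1)).filter (fun i => decide (look s i = none))).head?).getD 0 := by
  rw [List.head?_filter]
  have h : (List.range (s.length + 1)).find? (fun i => decide (look s i = none)) = some (nxt s) := by
    rw [List.find?_range_eq_some]
    refine ⟨by simpa using look_nxt s, ?_, ?_⟩
    · rw [List.mem_range]
      have := nxt_le s
      omega
    · intro i hi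
      have := isSome_of_lt_nxt hi
      rw [Bool.not_eq_true', decide_eq_false_iff_not]
      intro h
      rw [h] at this
      simp at this
  rw [h]
  rfl

attribute [local fun_prop] Poly.range_length poly_look

theorem poly_setv {s : α → St} {v : α → ℕ} {c : α → List Bool} (hs : Poly s) (hv : Poly v)
    (hc : Poly c) : Poly (fun a => setv (s a) (v a) (c a)) := by
  simp only [setv_eq]
  fun_prop

theorem poly_unset {s : α → St} {P : α → List ℕ} (hs : Poly s) (hP : Poly P) :
    Poly (fun a => unset (s a) (P a)) := by
  simp only [unset_eq]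
  fun_prop

theorem poly_nxt {s : α → St} (hs : Poly s) : Poly (fun a => nxt (s a)) := by
  simp only [nxt_eq]
  have h1 : Poly (fun a => List.range ((s a).length + 1)) :=
    ((UPoly.length hs).add (UPoly.const 1)).range
  fun_prop

theorem poly_nrm {v : α → ℕ} {e : α → Ev} (hv : Poly v) (he : Poly e) :
    Poly (fun a => Sys.nrm (v a) (e a)) := by
  unfold Sys.nrm
  fun_prop

attribute [local fun_prop] poly_setv poly_unset poly_nxt poly_nrm poly_find

theorem poly_stepA {A : α → List (List Bool)} {F : α → List (List ℕ)} {s : α → St}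
    {c : α → List Bool} (hA : Poly A) (hF : Poly F) (hs : Poly s) (hc : Poly c) :
    Poly (fun a => stepA (A a) (F a) (s a) (c a)) := by
  unfold stepA
  fun_prop

theorem stepA_spec {A : List (List Bool)} {F : List (List ℕ)} {K : ℕ} {s : St} {c : List Bool}
    (hs : ∀ o ∈ s, sz o ≤ K) (hc : sz c + 2 ≤ K) :
    (stepA A F s c).length = s.length ∧ ∀ o ∈ stepA A F s c, sz o ≤ K := by
  have h1 : ∀ o ∈ setv s (nxt s) c, sz o ≤ K := by
    intro o ho
    unfold setv at ho
    rw [List.mem_mapIdx] at ho
    obtain ⟨i, hi, rfl⟩ := ho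
    split_ifs
    · rw [sz_some]; exact hc
    · exact hs _ (List.getElem_mem _)
  unfold stepA
  split_ifs with h
  · cases find A (TT A.length) (BB A.length) F (setv s (nxt s) c) with
    | none => exact ⟨by simp, h1⟩
    | some e =>
      simp only [Option.elim]
      refine ⟨by simp, fun o ho => ?_⟩
      unfold unset at ho
      rw [List.mem_mapIdx] at ho
      obtain ⟨i, hi, rfl⟩ := ho
      split_ifs
      · rw [sz_none]; omega
      · exact h1 _ (List.getElem_mem _)
  · exact ⟨rfl, hs⟩

theorem runA_spec {A : List (List Bool)} {F : List (List ℕ)} {K : ℕ} : ∀ {cs : List (List Bool)},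
    (∀ c ∈ cs, sz c + 2 ≤ K) → 1 ≤ K →
    (runA A F cs).length = A.length ∧ ∀ o ∈ runA A F cs, sz o ≤ K
  | [], _, hK => by
    unfold runA
    simp only [List.foldr_nil, List.length_replicate, true_and]
    intro o ho
    rw [List.eq_of_mem_replicate ho, sz_none]
    exact hK
  | c :: cs, h, hK => by
    have ih := runA_spec (A := A) (F := F) (cs := cs) (fun c hc => h c (by simp [hc])) hK
    have h1 := stepA_spec (A := A) (F := F) ih.2 (h c (by simp))
    unfold runA at ih h1 ⊢
    rw [List.foldr_cons]
    exact ⟨h1.1.trans ih.1, h1.2⟩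

theorem poly_runA {A : α → List (List Bool)} {F : α → List (List ℕ)} {cs : α → List (List Bool)}
    (hA : Poly A) (hF : Poly F) (hcs : Poly cs) : Poly (fun a => runA (A a) (F a) (cs a)) := by
  unfold runA
  obtain ⟨q, hq⟩ := hcs.sz_le
  obtain ⟨q', hq'⟩ := UPoly.bound (UPoly.length hA)
  refine Poly.foldr (F := fun a c s => stepA (A a) (F a) s c) hcs ?_ ?_
    (q' * (q + Polynomial.C 3) + Polynomial.C 1) ?_
  · have h1 : Poly (fun a => (List.range (A a).length).map (fun _ => (none : Option (List Bool)))) := by
      fun_prop
    refine h1.congr fun a => ?_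
    rw [List.map_const', List.length_range]
  · exact poly_stepA (hA.comp (Poly.fst Poly.id)) (hF.comp (Poly.fst Poly.id))
      (Poly.snd (Poly.snd Poly.id)) (Poly.fst (Poly.snd Poly.id))
  · intro a k _
    have h1 := runA_spec (A := A a) (F := F a) (K := sz (cs a) + 2) (cs := (cs a).drop k)
      (fun c hc => by
        have := sz_le_of_mem (List.mem_of_mem_drop hc)
        omega) (by omega)
    have h2 := sz_le_length_mul _ _ h1.2
    rw [h1.1] at h2
    have h3 := hq a
    have h4 := hq' a
    simp only [Polynomial.eval_add, Polynomial.eval_mul, Polynomial.eval_C]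
    change sz (runA (A a) (F a) ((cs a).drop k)) ≤ _
    refine h2.trans (Nat.add_le_add_right (Nat.mul_le_mul h4 ?_) 1)
    omega

/-- the maximum number of ones in a row -/
def degA (A : List (List Bool)) : ℕ :=
  (((List.range (A.length + 1)).filter
    (fun d => A.all (fun r => decide ((r.filter id).length ≤ d)))).head?).getD 0

theorem poly_degA {A : α → List (List Bool)} (hA : Poly A) : Poly (fun a => degA (A a)) := by
  unfold degA
  have h1 : Poly (fun a => List.range ((A a).length + 1)) :=
    ((UPoly.length hA).add (UPoly.const 1)).range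
  fun_prop

theorem degA_le (A : List (List Bool)) : degA A ≤ A.length := by
  unfold degA
  rw [List.head?_filter]
  cases h : (List.range (A.length + 1)).find?
    (fun d => A.all (fun r => decide ((r.filter id).length ≤ d))) with
  | none => simp
  | some d =>
    have := List.mem_of_find?_eq_some h
    rw [List.mem_range] at this
    simp only [Option.getD_some]
    omega

/-- the number of bits for the hash functions -/
def M1 (n : ℕ) : ℕ := RR n * (n * jj n)

/-- the number of bits for the colours -/
def M2 (n D : ℕ) : ℕ := NN n D * kap D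

/-- **The algorithm.** -/
def alg (p : List (List Bool) × List Bool) : List ℕ :=
  if degA p.1 = 0 then List.replicate p.1.length 0 else
    (runA p.1 (famOf (jj p.1.length) p.1.length (RR p.1.length) (p.2.take (M1 p.1.length)))
      (chunk (kap (degA p.1)) (NN p.1.length (degA p.1))
        ((p.2.drop (M1 p.1.length)).take (M2 p.1.length (degA p.1))))).map
      (fun o => valB (o.getD []))

theorem poly_chunk {a m : α → ℕ} {l : α → List β} (ha : Poly a) (hm : UPoly m) (hl : Poly l) :
    Poly (fun x => chunk (a x) (m x) (l x)) := by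
  simp only [chunk_eq_map]
  have h1 := hm.range
  refine NPC.Poly.map (F := fun x i => ((l x).drop (i * a x)).take (a x)) h1 ?_
  exact Med.poly_take (Med.poly_drop (hl.comp (Poly.fst Poly.id))
    (Poly.mul (Poly.snd Poly.id) (ha.comp (Poly.fst Poly.id)))) (ha.comp (Poly.fst Poly.id))

theorem poly_famOf {j n R : α → ℕ} {w : α → List Bool} (hj : Poly j) (hn : UPoly n) (hR : UPoly R)
    (hw : Poly w) : Poly (fun x => famOf (j x) (n x) (R x) (w x)) := by
  unfold famOf toHash
  refine NPC.Poly.map (F := fun x u => (chunk (j x) (n x) u).map valB)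
    (poly_chunk (Poly.mul hn.toPoly hj) hR hw) ?_
  refine NPC.Poly.map (F := fun (_ : α × List Bool) v => valB v) (poly_chunk (hj.comp (Poly.fst Poly.id))
    (hn.comp (Poly.fst Poly.id)) (Poly.snd Poly.id)) ?_
  exact Poly.valBits (Poly.snd Poly.id)

theorem uPoly_kap {D : α → ℕ} (hD : Poly D) : UPoly (fun a => kap (D a)) := by
  unfold kap
  apply uPoly_size
  simp only [pow_two]
  fun_prop

theorem uPoly_jj {n : α → ℕ} (hn : UPoly n) : UPoly (fun a => jj (n a)) := by
  unfold jj
  apply uPoly_size
  exact ((UPoly.const 4).mul (uPoly_TT hn)).toPoly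

theorem uPoly_RR {n : α → ℕ} (hn : UPoly n) : UPoly (fun a => RR (n a)) := by
  unfold RR ss
  simp only [pow_two]
  have h1 := uPoly_TT hn
  exact ((UPoly.const 4).mul (hn.mul hn)).mul
    ((((UPoly.const 2).mul (h1.mul h1)).add ((UPoly.const 2).mul h1)).add (UPoly.const 2))

theorem uPoly_NN {n D : α → ℕ} (hn : UPoly n) (hD : Poly D) : UPoly (fun a => NN (n a) (D a)) := by
  unfold NN
  exact ((((uPoly_kap hD).add (UPoly.const 1)).mul hn).add hn).add (UPoly.const 1)

/-- **The algorithm runs in polynomial time.** -/
theorem poly_alg : Poly alg := by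
  have hA : Poly (fun p : List (List Bool) × List Bool => p.1) := Poly.fst Poly.id
  have hn : UPoly (fun p : List (List Bool) × List Bool => p.1.length) := UPoly.length hA
  have hD := poly_degA hA
  have hM1 : UPoly (fun p : List (List Bool) × List Bool => M1 p.1.length) :=
    (uPoly_RR hn).mul (hn.mul (uPoly_jj hn))
  have hM2 : UPoly (fun p : List (List Bool) × List Bool => M2 p.1.length (degA p.1)) :=
    (uPoly_NN hn hD).mul (uPoly_kap hD)
  have h1 : Poly (fun p : List (List Bool) × List Bool =>
      famOf (jj p.1.length) p.1.length (RR p.1.length) (p.2.take (M1 p.1.length))) :=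
    poly_famOf (uPoly_jj hn).toPoly hn (uPoly_RR hn) (Med.poly_take (Poly.snd Poly.id) hM1.toPoly)
  have h2 : Poly (fun p : List (List Bool) × List Bool =>
      chunk (kap (degA p.1)) (NN p.1.length (degA p.1))
        ((p.2.drop (M1 p.1.length)).take (M2 p.1.length (degA p.1)))) :=
    poly_chunk (uPoly_kap hD).toPoly (uPoly_NN hn hD)
      (Med.poly_take (Med.poly_drop (Poly.snd Poly.id) hM1.toPoly) hM2.toPoly)
  have h3 := poly_runA hA h1 h2
  have h4 : Poly (fun p : List (List Bool) × List Bool => List.replicate p.1.length 0) := by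
    have h5 : Poly (fun p : List (List Bool) × List Bool =>
      (List.range p.1.length).map (fun _ => (0 : ℕ))) := by fun_prop
    refine h5.congr fun a => ?_
    rw [List.map_const', List.length_range]
  unfold alg
  refine Poly.ite (by fun_prop) h4 ?_
  refine NPC.Poly.map (F := fun (_ : List (List Bool) × List Bool) o => valB (o.getD [])) h3 ?_
  exact Poly.valBits (by fun_prop)

end Pool.Agent.X240.NR
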